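import Pool.Agent.Lib.BU93.Levels
import Pool.Agent.Lib.MP_5e6e69_pr.Walks

/-! The nearest-neighbour walk on the cubic lattice as a model of lists of steps. -/

namespace Pool.Agent.Lib.BU93

open Finset hiding box
open Filter Topology Pool.Agent.Lib.MP_5e6e69_pr

theorem sum_ind {α : Type*} (s : Finset α) (Q : α → Prop) :
    ∑ l ∈ s, ind (Q l) = ({l | l ∈ s ∧ Q l}.ncard : ℝ) := by
  classical
  rw [← coe_filter, Set.ncard_coe_finset, card_filter]
  push_cast
  exact sum_congr rfl fun l _ => by unfold ind; congr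

section General

variable {V : Type} [AddCommGroup V]

open Classical in
/-- all lists of `n` steps -/
noncomputable def Model.Ls (M : Model V) : ℕ → Finset (List V)
  | 0 => {[]}
  | n + 1 => (M.S ×ˢ M.Ls n).image fun p => p.1 :: p.2

theorem Model.mem_Ls (M : Model V) (n : ℕ) :
    ∀ l, l ∈ M.Ls n ↔ l.length = n ∧ ∀ e ∈ l, e ∈ M.S := by
  induction n with
  | zero => intro l; cases l <;> simp [Model.Ls]
  | succ n ih =>
    intro l
    cases l with
    | nil => simp [Model.Ls]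
    | cons e l =>
      simp only [Model.Ls, mem_image, mem_product, ih, Prod.exists, List.cons.injEq,
        List.length_cons, Nat.add_right_cancel_iff, List.forall_mem_cons]
      exact ⟨fun ⟨a, b, h, h1, h2⟩ => h1 ▸ h2 ▸ ⟨h.2.1, h.1, h.2.2⟩,
        fun h => ⟨e, l, ⟨h.2.1, h.1, h.2.2⟩, rfl, rfl⟩⟩

theorem Model.E_eq (M : Model V) (n : ℕ) :
    ∀ f : List V → ℝ, M.E n f = M.z ^ n * ∑ l ∈ M.Ls n, f l := by
  classical
  induction n with
  | zero => intro f; simp [Model.E, Model.Ls]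
  | succ n ih =>
    intro f
    simp only [Model.E, Model.Ls, ih]
    rw [sum_image fun p _ q _ h => Prod.ext (List.cons.inj h).1 (List.cons.inj h).2,
      sum_product, mul_sum]
    exact sum_congr rfl fun e _ => by ring

/-- weight of the self-avoiding walks with `n` steps ending at `v` -/
noncomputable def Model.GG (M : Model V) (n : ℕ) (v : V) : ℝ :=
  M.E n fun l => ind (SA l ∧ l.sum = v)

theorem Model.GG_nonneg (M : Model V) (n : ℕ) (v : V) : 0 ≤ M.GG n v :=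
  M.E_nonneg fun _ => ind_nonneg _

theorem Model.LL_le (M : Model V) (q : ℕ × ℕ) (s : Finset V)
    (hs : ∀ l : List V, l.length = q.1 → (∀ e ∈ l, e ∈ M.S) → l.sum ∈ s) :
    M.LL q ≤ ∑ v ∈ s, M.GG q.1 v * M.GG q.2 v := by
  unfold Model.LL
  simp only [Model.GG, ← M.E_mulc]
  rw [← M.E_sum]
  refine M.E_mono _ fun x hx hS => le_trans ?_ (single_le_sum (f := fun v =>
    ind (SA x ∧ x.sum = v) * M.E q.2 fun l => ind (SA l ∧ l.sum = v))
    (fun v _ => mul_nonneg (ind_nonneg _) (M.GG_nonneg _ v)) (hs x hx hS))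
  rw [← M.E_cmul, ← M.E_neg]
  refine M.E_le fun y _ => ?_
  rw [← ind_and, sum_map_neg]
  exact ind_mono fun h => ⟨⟨h.1, rfl⟩, (SA_neg y).1 h.2.1, (add_neg_eq_zero.1 h.2.2).symm⟩

end General

variable {d : ℕ}

/-- the nearest-neighbour model at fugacity `1 / μ` -/
noncomputable def nn (d : ℕ) (μ : ℝ) (h : 0 ≤ μ) : Model (Fin d → ℤ) where
  S := (box d 1).filter fun e => sqNorm e = 1
  z := μ⁻¹
  z0 := inv_nonneg.2 h
  symm := fun e he => by
    simp only [mem_filter, box, Fintype.mem_piFinset, mem_Icc, sqNorm, Pi.neg_apply,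
      neg_sq] at he ⊢
    exact ⟨fun i => by have := he.1 i; omega, he.2⟩

theorem unit_le {e : Fin d → ℤ} (he : sqNorm e = 1) (i : Fin d) : |e i| ≤ 1 :=
  (sq_le_one_iff_abs_le_one _).1 (he ▸ sq_le_sqNorm e i)

theorem mem_nn {μ : ℝ} (h : 0 ≤ μ) (e : Fin d → ℤ) : e ∈ (nn d μ h).S ↔ sqNorm e = 1 := by
  simp only [nn, mem_filter, box, Fintype.mem_piFinset, mem_Icc, and_iff_right_iff_imp]
  exact fun he i => by simpa using abs_le.1 (unit_le he i)

theorem E_count {μ : ℝ} (h : 0 ≤ μ) (n : ℕ) (P : (Fin d → ℤ) → Prop) :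
    ((nn d μ h).E n fun l => ind (SA l ∧ P l.sum)) =
      ({ω | ω ∈ SAW d n ∧ P (ω (Fin.last n))}.ncard : ℝ) / μ ^ n := by
  rw [Model.E_eq, div_eq_inv_mul, ← inv_pow, sum_ind]
  congr 2
  have hstep : ∀ (l : List (Fin d → ℤ)) (i : ℕ) (hi : i < l.length),
      pos l (i + 1) - pos l i = l[i] := fun l i hi => by
    unfold pos; rw [List.sum_take_succ l i hi, add_sub_cancel_left]
  refine Set.ncard_congr (fun l _ => fun i : Fin (n + 1) => pos l i) ?_ ?_ ?_
  · intro l hl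
    simp only [Set.mem_ofPred_eq, Model.mem_Ls, mem_nn] at hl
    obtain ⟨⟨h1, h2⟩, h3, h4⟩ := hl
    refine ⟨⟨pos_zero l, fun i j e => Fin.ext (h3 i j (by omega) (by omega) e), fun i => ?_⟩, ?_⟩
    · simp only [Fin.val_succ, Fin.val_castSucc]
      rw [hstep l i (by omega)]
      exact h2 _ (List.getElem_mem _)
    · simp only [Fin.val_last]
      rwa [← h1, pos_len]
  · intro l l' hl hl' e
    simp only [Set.mem_ofPred_eq, Model.mem_Ls] at hl hl'
    refine List.ext_getElem (hl.1.1.trans hl'.1.1.symm) fun i h1 h2 => ?_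
    rw [← hstep l i h1, ← hstep l' i h2]
    have := hl.1.1
    exact congrArg₂ _ (congrFun e ⟨i + 1, by omega⟩) (congrFun e ⟨i, by omega⟩)
  · rintro ω ⟨⟨h0, h1, h2⟩, h3⟩
    set l := List.ofFn fun i : Fin n => ω i.succ - ω i.castSucc with hl
    have hn : l.length = n := by simp [hl]
    have hp : ∀ (i : ℕ) (hi : i < n + 1), pos l i = ω ⟨i, hi⟩ := by
      intro i
      induction i with
      | zero => intro _; rw [pos_zero]; exact h0.symm
      | succ i ih =>
        intro hi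
        have := hstep l i (by omega)
        rw [ih (by omega), sub_eq_iff_eq_add] at this
        rw [this]
        simp only [hl, List.getElem_ofFn, Fin.succ_mk, Fin.castSucc_mk, sub_add_cancel]
    refine ⟨l, ?_, funext fun i => hp i i.2⟩
    simp only [Set.mem_ofPred_eq, Model.mem_Ls, mem_nn]
    refine ⟨⟨hn, fun e he => ?_⟩, fun i j hi hj e => ?_, ?_⟩
    · obtain ⟨i, rfl⟩ := (List.mem_ofFn' _ _).1 he
      exact h2 i
    · rw [hp i (by omega), hp j (by omega)] at e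
      exact congrArg Fin.val (h1 e)
    · rw [← pos_len, hn, hp n (by omega)]
      exact h3

theorem aa_eq {μ : ℝ} (h : 0 ≤ μ) (n : ℕ) : (nn d μ h).aa n = cnt d n / μ ^ n := by
  simpa [Model.aa, cnt] using E_count (d := d) h n fun _ => True

theorem GG_eq {μ : ℝ} (h : 0 ≤ μ) (n : ℕ) (v : Fin d → ℤ) :
    (nn d μ h).GG n v = cntTo d n v / μ ^ n := E_count h n fun x => x = v

/-- a coordinate as an additive map -/
def coord (i : Fin d) : (Fin d → ℤ) →+ ℝ where
  toFun x := x i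
  map_zero' := by simp
  map_add' x y := by simp

theorem coord_le {μ : ℝ} (h : 0 ≤ μ) (i : Fin d) : ∀ e ∈ (nn d μ h).S, |coord i e| ≤ 1 :=
  fun e he => by
    have := unit_le ((mem_nn h e).1 he) i
    change |(e i : ℝ)| ≤ 1
    exact_mod_cast this

theorem mem_box {x : Fin d → ℤ} {R : ℕ} (h : ∀ i, |coord i x| ≤ R) : x ∈ box d R := by
  simp only [box, Fintype.mem_piFinset, mem_Icc]
  intro i
  have h1 : |(x i : ℝ)| ≤ R := h i
  exact abs_le.1 (by exact_mod_cast h1)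

theorem bub (hd : 1 ≤ d) {μ : ℝ} (h : 0 ≤ μ)
    (hμ : Tendsto (fun n : ℕ => cnt d n ^ (1 / (n : ℝ))) atTop (𝓝 μ)) {B : ℝ}
    (hB : ∀ N R, ∑ v ∈ box d R, (∑ n ∈ range N, (nn d μ h).GG n v) ^ 2 ≤ B) :
    (nn d μ h).Bub B := by
  have h1 := one_le_mu hd hμ
  refine ⟨fun n => ?_, fun x hx => ?_, fun s => ?_⟩
  · rw [aa_eq, one_le_div (by positivity)]
    rcases Nat.eq_zero_or_pos n with rfl | hn
    · simpa using one_le_cnt hd 0
    · exact mu_pow_le hd hμ n hn
  · obtain ⟨N, hN⟩ := eventually_atTop.1 ((hμ.eventually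
      (gt_mem_nhds (show μ < μ * x by nlinarith))).and (eventually_ge_atTop 1))
    have h0 := sum_nonneg (s := range N) fun n _ => (nn d μ h).aa_nonneg n
    refine ⟨1 + ∑ n ∈ range N, (nn d μ h).aa n, fun n => ?_⟩
    have h2 : 1 ≤ x ^ n := one_le_pow₀ hx.le
    rcases lt_or_ge n N with hn | hn
    · have := single_le_sum (s := range N) (fun n _ => (nn d μ h).aa_nonneg n) (mem_range.2 hn)
      nlinarith
    · obtain ⟨h3, h4⟩ := hN n hn
      have h5 := one_le_cnt hd n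
      have h6 := pow_le_pow_left₀ (by positivity) h3.le n
      rw [one_div, Real.rpow_inv_natCast_pow (by linarith) (by omega), mul_pow] at h6
      have h7 : (nn d μ h).aa n ≤ x ^ n := by
        rw [aa_eq, div_le_iff₀ (by positivity)]; linarith
      nlinarith
  · set N := s.sup (fun q => max q.1 q.2) + 1
    have hs : s ⊆ range N ×ˢ range N := fun q hq => by
      have := le_sup (f := fun q : ℕ × ℕ => max q.1 q.2) hq
      simp only [mem_product, mem_range]
      omega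
    refine (sum_le_sum_of_subset_of_nonneg hs fun q _ _ => Model.LL_nonneg _ q).trans
      ((sum_le_sum fun q hq => Model.LL_le _ q (box d N) fun l hl hS => mem_box fun i => ?_).trans
        (le_trans (le_of_eq ?_) (hB N N)))
    · refine (Model.len_le (coord_le h i) hS).trans ?_
      rw [hl]
      exact_mod_cast (mem_range.1 (mem_product.1 hq).1).le
    · rw [sum_comm]
      exact sum_congr rfl fun v _ => by rw [sum_product, pow_two, sum_mul_sum]

theorem lower {μ B : ℝ} {h : 0 ≤ μ} (hb : (nn d μ h).Bub B) {q : ℕ} (hq : 1 ≤ q) :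
    ∃ A : ℝ, 0 < A ∧ ∀ m : ℕ, ((9 : ℝ) ^ q) ^ m / 2 ≤
      ∑ v ∈ box d ⌈A * 3 ^ ((q + 1) * m)⌉₊, ∑ n ∈ range ((9 ^ q) ^ m), (nn d μ h).GG n v := by
  choose A hA0 hA using fun i => hb.levels (coord_le h i) hq
  obtain ⟨k, hk⟩ := exists_pow_lt_of_lt_one (x := (1 / (2 * d + 1) : ℝ)) (y := 1 / 27)
    (by positivity) (by norm_num)
  have h0 : 0 ≤ ∑ i, A i := sum_nonneg fun i _ => (hA0 i).le
  refine ⟨(1 + ∑ i, A i) * 3 ^ k, by positivity, fun m => ?_⟩
  set R := (1 + ∑ i, A i) * 3 ^ k * 3 ^ ((q + 1) * m) with hR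
  rw [sum_comm]
  refine le_trans (le_of_eq ?_) (card_nsmul_le_sum _ _ (1 / 2) fun n hn => ?_)
  · simp [div_eq_mul_inv]
  have h1 : (nn d μ h).aa n ≤ ∑ v ∈ box d ⌈R⌉₊, (nn d μ h).GG n v +
      ∑ i, (nn d μ h).ff (coord i) n R := by
    unfold Model.aa Model.GG Model.ff
    rw [← Model.E_sum, ← Model.E_sum, ← Model.E_add]
    refine Model.E_le _ fun l _ => ?_
    have a0 := sum_nonneg (s := box d ⌈R⌉₊) fun v _ => ind_nonneg (SA l ∧ l.sum = v)
    have b0 := sum_nonneg (s := univ) fun i _ => ind_nonneg (SA l ∧ R ≤ |coord i l.sum|)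
    by_cases h2 : ∀ i, |coord i l.sum| ≤ R
    · have := single_le_sum (s := box d ⌈R⌉₊) (fun v _ => ind_nonneg (SA l ∧ l.sum = v))
        (mem_box fun i => (h2 i).trans (Nat.le_ceil R))
      linarith [ind_mono (P := SA l) (Q := SA l ∧ l.sum = l.sum) fun h => ⟨h, rfl⟩]
    · push Not at h2
      obtain ⟨i, hi⟩ := h2
      have := single_le_sum (s := univ) (fun i _ => ind_nonneg (SA l ∧ R ≤ |coord i l.sum|))
        (mem_univ i)
      linarith [ind_mono (P := SA l) (Q := SA l ∧ R ≤ |coord i l.sum|) fun h => ⟨h, hi.le⟩]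
  have h2 : ∑ i, (nn d μ h).ff (coord i) n R ≤ d * (1 / (2 * d + 1)) := by
    refine (sum_le_card_nsmul _ _ (1 / (2 * d + 1) : ℝ) fun i _ => ?_).trans (by simp)
    refine le_trans (Model.ff_mono _ _ _ ?_) ((hA i m k n (mem_range.1 hn).le).trans hk.le)
    have := single_le_sum (s := univ) (fun i _ => (hA0 i).le) (mem_univ i)
    rw [hR, pow_add, mul_assoc, mul_comm (3 ^ k : ℝ)]
    exact mul_le_mul_of_nonneg_right (by linarith) (by positivity)
  have h3 : (d : ℝ) * (1 / (2 * d + 1)) ≤ 1 / 2 := by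
    rw [mul_one_div, div_le_div_iff₀ (by positivity) (by norm_num)]; linarith
  linarith [hb.one_le n]

theorem card_box (d R : ℕ) : (box d R).card = (2 * R + 1) ^ d := by
  simp only [box, Fintype.card_piFinset, Int.card_Icc, prod_const, card_univ, Fintype.card_fin]
  congr 1
  omega

theorem not_bdd (hd : 1 ≤ d) (hd3 : d ≤ 3) {μ : ℝ} (h : 0 ≤ μ)
    (hμ : Tendsto (fun n : ℕ => cnt d n ^ (1 / (n : ℝ))) atTop (𝓝 μ)) {B : ℝ}
    (hB : ∀ N R, ∑ v ∈ box d R, (∑ n ∈ range N, (nn d μ h).GG n v) ^ 2 ≤ B) : False := by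
  have hb := bub hd h hμ hB
  obtain ⟨A, hA, hl⟩ := lower hb (q := 4) (by norm_num)
  obtain ⟨m, hm⟩ := pow_unbounded_of_one_lt (4 * (2 * A + 3) ^ 3 * B) (show (1 : ℝ) < 3 by norm_num)
  have h1 := hl m
  set R := ⌈A * 3 ^ ((4 + 1) * m)⌉₊ with hR
  have h2 := sq_sum_le_card_mul_sum_sq (s := box d R)
    (f := fun v => ∑ n ∈ range ((9 ^ 4) ^ m), (nn d μ h).GG n v)
  have h3 : ((box d R).card : ℝ) ≤ ((2 * A + 3) * 3 ^ (5 * m)) ^ 3 := by
    rw [card_box]
    push_cast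
    refine (pow_le_pow_right₀ (by linarith [(Nat.cast_nonneg R : (0 : ℝ) ≤ R)]) hd3).trans
      (pow_le_pow_left₀ (by positivity) ?_ 3)
    have a1 := Nat.ceil_lt_add_one (show 0 ≤ A * 3 ^ ((4 + 1) * m) by positivity)
    have a2 : (1 : ℝ) ≤ 3 ^ (5 * m) := one_le_pow₀ (by norm_num)
    rw [← hR] at a1
    norm_num at a1
    linarith
  have hB1 := hb.one_le_B
  have h4 := (pow_le_pow_left₀ (by positivity) h1 2).trans (h2.trans
    (mul_le_mul h3 (hB _ _) (sum_nonneg fun _ _ => sq_nonneg _) (by positivity)))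
  have h5 : (((9 : ℝ) ^ 4) ^ m / 2) ^ 2 = 3 ^ m * 3 ^ (15 * m) / 4 := by
    rw [show (9 : ℝ) ^ 4 = 3 ^ 8 by norm_num, ← pow_mul]; ring
  have h6 : ((2 * A + 3) * 3 ^ (5 * m)) ^ 3 * B = (2 * A + 3) ^ 3 * B * 3 ^ (15 * m) := by ring
  rw [h5, h6] at h4
  have h7 : (0 : ℝ) < 3 ^ (15 * m) := by positivity
  nlinarith

theorem bubble_top (hd : 1 ≤ d) {μ : ℝ}
    (hμ : Tendsto (fun n : ℕ => cnt d n ^ (1 / (n : ℝ))) atTop (𝓝 μ))
    (H : ∀ (h : 0 ≤ μ) (B : ℝ),
      (∀ N R, ∑ v ∈ box d R, (∑ n ∈ range N, (nn d μ h).GG n v) ^ 2 ≤ B) → False) :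
    ∑' z : Fin d → ℤ, (∑' n : ℕ, ENNReal.ofReal (cntTo d n z / μ ^ n)) ^ 2 = ⊤ := by
  by_contra hne
  have h : 0 ≤ μ := zero_le_one.trans (one_le_mu hd hμ)
  refine H h _ fun N R => (ENNReal.ofReal_le_iff_le_toReal hne).1 ?_
  rw [ENNReal.ofReal_sum_of_nonneg fun _ _ => sq_nonneg _]
  refine le_trans (sum_le_sum fun v _ => ?_) (ENNReal.sum_le_tsum _)
  rw [ENNReal.ofReal_pow (sum_nonneg fun n _ => Model.GG_nonneg _ n v),
    ENNReal.ofReal_sum_of_nonneg fun n _ => Model.GG_nonneg _ n v]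
  simp only [GG_eq]
  gcongr
  exact ENNReal.sum_le_tsum _

end Pool.Agent.Lib.BU93
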