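import Mathlib

/-! Walks as lists of steps, the weighted sum over all lists of a given length,
self-avoidance and the first-hit decomposition of two walks. -/

namespace Pool.Agent.Lib.BU93

open Finset

/-- real indicator of a proposition -/
noncomputable def ind (P : Prop) : ℝ := by classical exact if P then 1 else 0

theorem ind_pos {P : Prop} (h : P) : ind P = 1 := by simp [ind, h]
theorem ind_neg {P : Prop} (h : ¬ P) : ind P = 0 := by simp [ind, h]
theorem ind_nonneg (P : Prop) : 0 ≤ ind P := by
  by_cases h : P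
  · rw [ind_pos h]; exact zero_le_one
  · rw [ind_neg h]
theorem ind_le_one (P : Prop) : ind P ≤ 1 := by
  by_cases h : P
  · rw [ind_pos h]
  · rw [ind_neg h]; exact zero_le_one
theorem ind_mono {P Q : Prop} (h : P → Q) : ind P ≤ ind Q := by
  by_cases hP : P
  · rw [ind_pos hP, ind_pos (h hP)]
  · rw [ind_neg hP]; exact ind_nonneg Q
theorem ind_congr {P Q : Prop} (h : P ↔ Q) : ind P = ind Q :=
  le_antisymm (ind_mono h.1) (ind_mono h.2)
theorem ind_and (P Q : Prop) : ind (P ∧ Q) = ind P * ind Q := by
  by_cases hP : P <;> by_cases hQ : Q <;> simp [ind, hP, hQ]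
theorem abs_ind (P : Prop) : |ind P| = ind P := abs_of_nonneg (ind_nonneg P)

variable {V : Type} [AddCommGroup V]

/-- a symmetric finite step set and a fugacity -/
structure Model (V : Type) [AddCommGroup V] where
  S : Finset V
  z : ℝ
  z0 : 0 ≤ z
  symm : ∀ e ∈ S, -e ∈ S

/-- weighted sum over all lists of `n` steps -/
noncomputable def Model.E (M : Model V) : ℕ → (List V → ℝ) → ℝ
  | 0, f => f []
  | n + 1, f => ∑ e ∈ M.S, M.z * M.E n fun l => f (e :: l)

namespace Model

variable (M : Model V)

theorem E_mono (n : ℕ) : ∀ {f g : List V → ℝ},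
    (∀ l, l.length = n → (∀ e ∈ l, e ∈ M.S) → f l ≤ g l) → M.E n f ≤ M.E n g := by
  induction n with
  | zero => intro f g h; exact h [] rfl (by simp)
  | succ n ih =>
    intro f g h
    refine sum_le_sum fun e he => mul_le_mul_of_nonneg_left (ih fun l hl hS => ?_) M.z0
    exact h _ (by simp [hl]) (by simpa using ⟨he, hS⟩)

theorem E_le {n : ℕ} {f g : List V → ℝ} (h : ∀ l, l.length = n → f l ≤ g l) :
    M.E n f ≤ M.E n g := M.E_mono n fun l hl _ => h l hl

theorem E_congr {n : ℕ} {f g : List V → ℝ} (h : ∀ l, l.length = n → f l = g l) :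
    M.E n f = M.E n g :=
  le_antisymm (M.E_le fun l hl => (h l hl).le) (M.E_le fun l hl => (h l hl).ge)

theorem E_add (n : ℕ) : ∀ f g : List V → ℝ,
    M.E n (fun l => f l + g l) = M.E n f + M.E n g := by
  induction n with
  | zero => intro f g; rfl
  | succ n ih => intro f g; simp only [E, ih, mul_add, sum_add_distrib]

theorem E_cmul (n : ℕ) (c : ℝ) : ∀ f : List V → ℝ, M.E n (fun l => c * f l) = c * M.E n f := by
  induction n with
  | zero => intro f; rfl
  | succ n ih =>
    intro f
    simp only [E, ih, mul_sum]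
    exact sum_congr rfl fun e _ => by ring

theorem E_mulc (n : ℕ) (c : ℝ) (f : List V → ℝ) : M.E n (fun l => f l * c) = M.E n f * c := by
  rw [mul_comm, ← E_cmul]; exact M.E_congr fun l _ => mul_comm _ _

theorem E_zero (n : ℕ) : M.E n (fun _ => 0) = 0 := by
  simpa using M.E_cmul n 0 fun _ => 0

theorem E_sub (n : ℕ) (f g : List V → ℝ) : M.E n (fun l => f l - g l) = M.E n f - M.E n g := by
  have h := M.E_add n f fun l => -1 * g l
  rw [E_cmul] at h
  rw [show M.E n f - M.E n g = M.E n f + -1 * M.E n g by ring, ← h]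
  exact M.E_congr fun l _ => by ring

theorem E_nonneg {n : ℕ} {f : List V → ℝ} (h : ∀ l, 0 ≤ f l) : 0 ≤ M.E n f :=
  (M.E_zero n).symm.le.trans (M.E_le fun l _ => h l)

theorem E_sum {ι : Type*} (n : ℕ) (s : Finset ι) (f : ι → List V → ℝ) :
    M.E n (fun l => ∑ i ∈ s, f i l) = ∑ i ∈ s, M.E n (f i) := by
  classical
  induction s using Finset.induction_on with
  | empty => simpa using M.E_zero n
  | insert i s hi ih => simp only [sum_insert hi]; rw [E_add, ih]

theorem E_abs {n : ℕ} {f g : List V → ℝ} (h : ∀ l, l.length = n → |f l| ≤ g l) :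
    |M.E n f| ≤ M.E n g := by
  rw [abs_le]
  refine ⟨?_, M.E_le fun l hl => (abs_le.1 (h l hl)).2⟩
  have := M.E_le (n := n) (f := fun l => -1 * g l) (g := f)
    fun l hl => by linarith [(abs_le.1 (h l hl)).1]
  rw [E_cmul] at this
  linarith

theorem E_append (n m : ℕ) : ∀ f : List V → ℝ,
    M.E (n + m) f = M.E n fun a => M.E m fun b => f (a ++ b) := by
  induction n with
  | zero => intro f; simp [E]
  | succ n ih =>
    intro f
    rw [show n + 1 + m = (n + m) + 1 by ring]
    simp only [E, ih, List.cons_append]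

theorem E_comm (n m : ℕ) : ∀ f : List V → List V → ℝ,
    (M.E n fun a => M.E m fun b => f a b) = M.E m fun b => M.E n fun a => f a b := by
  induction n with
  | zero => intro f; rfl
  | succ n ih =>
    intro f
    simp only [E, ih]
    rw [E_sum]
    exact sum_congr rfl fun e _ => (M.E_cmul _ _ _).symm

theorem E_neg (n : ℕ) : ∀ f : List V → ℝ, M.E n (fun l => f (l.map Neg.neg)) = M.E n f := by
  induction n with
  | zero => intro f; rfl
  | succ n ih =>
    intro f
    simp only [E, List.map_cons]
    refine sum_nbij' Neg.neg Neg.neg M.symm M.symm (by simp) (by simp) fun e _ => ?_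
    rw [ih fun l => f (-e :: l)]

end Model

/-- position after `i` steps -/
def pos (l : List V) (i : ℕ) : V := (l.take i).sum

/-- self-avoiding list of steps -/
def SA (l : List V) : Prop :=
  ∀ i j, i ≤ l.length → j ≤ l.length → pos l i = pos l j → i = j

theorem pos_zero (l : List V) : pos l 0 = 0 := by simp [pos]

theorem pos_len (l : List V) : pos l l.length = l.sum := by simp [pos]

theorem pos_left {a : List V} (b : List V) {i : ℕ} (h : i ≤ a.length) :
    pos (a ++ b) i = pos a i := by
  unfold pos; rw [List.take_append_of_le_length h]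

theorem pos_right (a b : List V) (j : ℕ) : pos (a ++ b) (a.length + j) = a.sum + pos b j := by
  unfold pos; rw [List.take_length_add_append, List.sum_append]

/-- the walk `a` without its end point avoids the walk `b` started at `a.sum + v` -/
def Dis (a : List V) (v : V) (b : List V) : Prop :=
  ∀ i j, i < a.length → j ≤ b.length → pos a i ≠ a.sum + v + pos b j

theorem SA.left {a b : List V} (h : SA (a ++ b)) : SA a := fun i j hi hj e =>
  h i j (by simp; omega) (by simp; omega) (by rw [pos_left b hi, pos_left b hj, e])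

theorem SA.right {a b : List V} (h : SA (a ++ b)) : SA b := fun i j hi hj e => by
  have := h (a.length + i) (a.length + j) (by simp; omega) (by simp; omega)
    (by rw [pos_right, pos_right, e])
  omega

theorem SA.dis {a b : List V} (h : SA (a ++ b)) : Dis a 0 b := fun i j hi hj e => by
  have := h i (a.length + j) (by simp; omega) (by simp; omega)
    (by rw [pos_left b hi.le, pos_right, e, add_zero])
  omega

theorem SA.append {a b : List V} (ha : SA a) (hb : SA b) (h : Dis a 0 b) : SA (a ++ b) := by
  intro i j hi hj e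
  rw [List.length_append] at hi hj
  rcases lt_or_ge i a.length with h1 | h1 <;> rcases lt_or_ge j a.length with h2 | h2
  · rw [pos_left b h1.le, pos_left b h2.le] at e
    exact ha i j h1.le h2.le e
  · obtain ⟨k, rfl⟩ := Nat.exists_eq_add_of_le h2
    rw [pos_left b h1.le, pos_right] at e
    exact absurd (by rw [e, add_zero]) (h i k h1 (by omega))
  · obtain ⟨k, rfl⟩ := Nat.exists_eq_add_of_le h1
    rw [pos_left b h2.le, pos_right] at e
    exact absurd (by rw [← e, add_zero]) (h j k h2 (by omega))
  · obtain ⟨k, rfl⟩ := Nat.exists_eq_add_of_le h1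
    obtain ⟨k', rfl⟩ := Nat.exists_eq_add_of_le h2
    rw [pos_right, pos_right] at e
    rw [hb k k' (by omega) (by omega) (add_left_cancel e)]

theorem sum_map_neg (l : List V) : (l.map Neg.neg).sum = -l.sum := by
  induction l with
  | nil => simp
  | cons e l ih => simp only [List.map_cons, List.sum_cons, ih]; abel

theorem SA_neg (l : List V) : SA (l.map Neg.neg) ↔ SA l := by
  have h : ∀ i, pos (l.map Neg.neg) i = -pos l i := fun i => by
    unfold pos; rw [← List.map_take, sum_map_neg]
  simp only [SA, h, List.length_map, neg_inj]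

/-- `p ++ x` and `y ++ f` are self-avoiding, the second starts at the end of the first, and the
end of `p` is the first point of the first walk on the second one -/
def Hit (p x y f : List V) : Prop :=
  SA (p ++ x) ∧ SA (y ++ f) ∧ x.sum + y.sum = 0 ∧ Dis p x.sum (y ++ f)

theorem Hit.sa {p x y f : List V} (h : Hit p x y f) : SA (p ++ f) :=
  h.1.left.append h.2.1.right fun i j hi hj e =>
    h.2.2.2 i (y.length + j) hi (by simp; omega) (by
      rw [pos_right, e, add_zero, add_assoc, ← add_assoc x.sum, h.2.2.1, zero_add])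

theorem Hit.cut {p x y g f : List V} (h : Hit p x y (g ++ f)) : Hit p x y g := by
  obtain ⟨h1, h2, h3, h4⟩ := h
  rw [← List.append_assoc] at h2 h4
  exact ⟨h1, h2.left, h3, fun i j hi hj e => h4 i j hi (by simp at hj ⊢; omega)
    (by rw [pos_left f hj, e])⟩

theorem Hit.ext {p x y g f : List V} (h : Hit p x y g) (h1 : SA (p ++ (g ++ f)))
    (h2 : SA (y ++ (g ++ f))) : Hit p x y (g ++ f) := by
  refine ⟨h.1, h2, h.2.2.1, fun i j hi hj e => ?_⟩
  rcases le_total j y.length with h3 | h3
  · exact h.2.2.2 i j hi (by simp; omega) (by rw [e, pos_left _ h3, pos_left _ h3])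
  · obtain ⟨k, rfl⟩ := Nat.exists_eq_add_of_le h3
    refine h1.dis i k hi (by simp at hj ⊢; omega) ?_
    rw [e, pos_right, add_zero, add_assoc, ← add_assoc x.sum, h.2.2.1, zero_add]

theorem Hit.late {p x y f g r : List V} (h : Hit p x y f) (e : y ++ f = g ++ r)
    (hy : y.length ≤ g.length) (h1 : SA (p ++ x ++ g)) : SA (p ++ x ++ (y ++ f)) := by
  have h2 : pos g y.length = y.sum := by
    rw [← pos_left r hy, ← e, pos_left f le_rfl, pos_len]
  have h3 : x = [] := by
    by_contra hx
    have : 0 < x.length := List.length_pos_iff.2 hx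
    refine h1.dis p.length y.length (by simp; omega) hy ?_
    rw [pos_left x le_rfl, pos_len, h2, List.sum_append, add_zero, add_assoc, h.2.2.1, add_zero]
  have h4 : y = [] := by
    have h5 := h.2.2.1
    rw [h3, List.sum_nil, zero_add] at h5
    exact List.length_eq_zero_iff.1
      (h.2.1.left y.length 0 le_rfl (Nat.zero_le _) (by rw [pos_len, pos_zero, h5]))
  have := h.sa
  rw [h3, h4]; simpa using this

theorem hit_iff {P F : List V} (hP : SA P) (hF : SA F) {i : ℕ} (b : ℕ) (hi : i ≤ P.length) :
    Hit (P.take i) (P.drop i) (F.take b) (F.drop b) ↔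
      pos P i = P.sum + pos F b ∧
        ∀ i' j, i' < i → j ≤ F.length → pos P i' ≠ P.sum + pos F j := by
  have e1 : (P.take i).sum + (P.drop i).sum = P.sum := by
    rw [← List.sum_append, List.take_append_drop]
  have e2 : ∀ i', i' < i → pos (P.take i) i' = pos P i' := fun i' h => by
    unfold pos; rw [List.take_take, min_eq_left h.le]
  unfold Hit Dis
  rw [List.take_append_drop, List.take_append_drop, List.length_take, min_eq_left hi, e1]
  refine ⟨fun h => ⟨?_, fun i' j h1 h2 => e2 i' h1 ▸ h.2.2.2 i' j h1 h2⟩,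
    fun h => ⟨hP, hF, ?_, fun i' j h1 h2 => (e2 i' h1).symm ▸ h.2 i' j h1 h2⟩⟩
  · unfold pos
    rw [← e1, add_assoc, h.2.2.1, add_zero]
  · have h1 := h.1
    unfold pos at h1
    rw [← e1, add_assoc] at h1
    exact left_eq_add.1 h1

theorem sum_hit {P F : List V} {n m : ℕ} (hn : P.length = n) (hm : F.length = m) :
    ind (SA P) * ind (SA F) = ∑ q ∈ range (n + 1) ×ˢ range (m + 1),
      ind (Hit (P.take (n - q.1)) (P.drop (n - q.1)) (F.take q.2) (F.drop q.2)) := by
  classical
  by_cases h : SA P ∧ SA F
  · obtain ⟨hP, hF⟩ := h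
    have hex : ∃ i, ∃ j, j ≤ m ∧ pos P i = P.sum + pos F j :=
      ⟨n, 0, Nat.zero_le _, by rw [← hn, pos_len, pos_zero, add_zero]⟩
    obtain ⟨j, hj, hij⟩ := Nat.find_spec hex
    have hi : Nat.find hex ≤ n :=
      Nat.find_min' hex ⟨0, Nat.zero_le _, by rw [← hn, pos_len, pos_zero, add_zero]⟩
    rw [ind_pos hP, ind_pos hF, sum_eq_single (n - Nat.find hex, j)]
    · rw [ind_pos, one_mul]
      simp only [Nat.sub_sub_self hi]
      exact (hit_iff hP hF j (by omega)).2 ⟨hij, fun i' j' h1 h2 e =>
        Nat.find_min hex h1 ⟨j', by omega, e⟩⟩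
    · rintro ⟨a, b⟩ hq hne
      simp only [mem_product, mem_range] at hq
      refine ind_neg fun hh => hne ?_
      obtain ⟨h1, h2⟩ := (hit_iff hP hF b (by simp only; omega)).1 hh
      simp only at h1 h2
      have h3 : Nat.find hex ≤ n - a := Nat.find_min' hex ⟨b, by omega, h1⟩
      have h4 : n - a ≤ Nat.find hex := by
        by_contra h5
        exact h2 _ j (by omega) (by omega) hij
      have h5 : n - a = Nat.find hex := le_antisymm h4 h3
      rw [h5, hij] at h1
      have h6 := hF j b (by omega) (by omega) (add_left_cancel h1)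
      ext <;> simp only <;> omega
    · intro hq
      exact absurd (by simp only [mem_product, mem_range]; omega) hq
  · rw [← ind_and, ind_neg h]
    refine (sum_eq_zero fun q _ => ind_neg fun hh => h ?_).symm
    have h1 := hh.1
    have h2 := hh.2.1
    rw [List.take_append_drop] at h1 h2
    exact ⟨h1, h2⟩

end Pool.Agent.Lib.BU93
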