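import Pool.Agent.Lib.BU93.Basic

/-! The first-hit identity for two independent self-avoiding walks and its consequences when the
bubble diagram is finite. -/

namespace Pool.Agent.Lib.BU93

open Finset

variable {V : Type} [AddCommGroup V]

namespace Model

variable (M : Model V)

/-- weight of the self-avoiding walks with `n` steps -/
noncomputable def aa (n : ℕ) : ℝ := M.E n fun l => ind (SA l)

/-- weight of the pairs of self-avoiding walks forming a closed loop -/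
noncomputable def LL (q : ℕ × ℕ) : ℝ :=
  M.E q.1 fun x => M.E q.2 fun y => ind (SA x ∧ SA y ∧ x.sum + y.sum = 0)

/-- one term of the first-hit identity -/
noncomputable def II (n m : ℕ) (Φ : List V → List V → ℝ) (q : ℕ × ℕ) : ℝ :=
  M.E (n - q.1) fun p => M.E q.1 fun x => M.E q.2 fun y => M.E (m - q.2) fun f =>
    ind (Hit p x y f) * Φ (p ++ x) (y ++ f)

theorem aa_nonneg (n : ℕ) : 0 ≤ M.aa n := M.E_nonneg fun _ => ind_nonneg _

theorem LL_nonneg (q : ℕ × ℕ) : 0 ≤ M.LL q :=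
  M.E_nonneg fun _ => M.E_nonneg fun _ => ind_nonneg _

theorem LL_zero : M.LL (0, 0) = 1 := by
  have : SA ([] : List V) := fun i j hi hj _ => by simp at hi hj; omega
  simp only [LL, E]
  exact ind_pos ⟨this, this, by simp⟩

theorem first_hit (n m : ℕ) (Φ : List V → List V → ℝ) :
    (M.E n fun P => M.E m fun F => ind (SA P) * ind (SA F) * Φ P F) =
      ∑ q ∈ range (n + 1) ×ˢ range (m + 1), M.II n m Φ q := by
  have h1 : (M.E n fun P => M.E m fun F => ind (SA P) * ind (SA F) * Φ P F) =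
      M.E n fun P => ∑ q ∈ range (n + 1) ×ˢ range (m + 1), M.E m fun F =>
        ind (Hit (P.take (n - q.1)) (P.drop (n - q.1)) (F.take q.2) (F.drop q.2)) * Φ P F := by
    refine M.E_congr fun P hP => ?_
    rw [← E_sum]
    refine M.E_congr fun F hF => ?_
    rw [sum_hit hP hF, sum_mul]
  rw [h1, E_sum]
  refine sum_congr rfl fun q hq => ?_
  simp only [mem_product, mem_range] at hq
  obtain ⟨a, b⟩ := q
  obtain ⟨i, rfl⟩ : ∃ i, n = i + a := ⟨n - a, by simp only at hq; omega⟩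
  obtain ⟨j, rfl⟩ : ∃ j, m = b + j := ⟨m - b, by simp only at hq; omega⟩
  simp only [II, Nat.add_sub_cancel, Nat.add_sub_cancel_left]
  rw [E_append]
  refine M.E_congr fun p hp => M.E_congr fun x _ => ?_
  rw [E_append]
  refine M.E_congr fun y hy => M.E_congr fun f _ => ?_
  rw [List.take_left' hp, List.drop_left' hp, List.take_left' hy, List.drop_left' hy]

theorem II_le (n m : ℕ) {Φ : List V → List V → ℝ} (hΦ : ∀ P F, |Φ P F| ≤ 1) (q : ℕ × ℕ) :
    |M.II n m Φ q| ≤ M.LL q * M.aa (n - q.1 + (m - q.2)) := by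
  unfold II aa
  rw [E_append, ← E_cmul]
  refine M.E_abs fun p _ => ?_
  unfold LL
  rw [← E_mulc]
  refine M.E_abs fun x _ => ?_
  rw [← E_mulc]
  refine M.E_abs fun y _ => ?_
  rw [← E_cmul]
  refine M.E_abs fun f _ => ?_
  rw [abs_mul, abs_ind, ← ind_and]
  refine (mul_le_of_le_one_right (ind_nonneg _) (hΦ _ _)).trans (ind_mono fun h => ?_)
  exact ⟨⟨h.1.right, h.2.1.left, h.2.2.1⟩, h.sa⟩

/-- critical fugacity and finite bubble diagram -/
structure Bub (B : ℝ) : Prop where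
  one_le : ∀ n, 1 ≤ M.aa n
  sub : ∀ x : ℝ, 1 < x → ∃ C : ℝ, ∀ n, M.aa n ≤ C * x ^ n
  bdd : ∀ s : Finset (ℕ × ℕ), ∑ q ∈ s, M.LL q ≤ B

/-- loops with a side longer than `K` weigh at most `ε` -/
def Tail (K : ℕ) (ε : ℝ) : Prop :=
  ∀ s : Finset (ℕ × ℕ), (∀ q ∈ s, K < q.1 ∨ K < q.2) → ∑ q ∈ s, M.LL q ≤ ε

variable {M} {B : ℝ}

theorem Tail.mono {K K' : ℕ} {ε : ℝ} (h : M.Tail K ε) (hK : K ≤ K') : M.Tail K' ε :=
  fun s hs => h s fun q hq => (hs q hq).imp (fun h => by omega) fun h => by omega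

theorem Tail.nonneg {K : ℕ} {ε : ℝ} (h : M.Tail K ε) : 0 ≤ ε := by
  simpa using h ∅ (by simp)

theorem Bub.one_le_B (h : M.Bub B) : 1 ≤ B := by
  have := h.bdd {(0, 0)}
  rwa [sum_singleton, LL_zero] at this

theorem Bub.tail (h : M.Bub B) {ε : ℝ} (hε : 0 < ε) : ∃ K, M.Tail K ε := by
  have hs : Summable M.LL := summable_of_sum_le M.LL_nonneg h.bdd
  obtain ⟨s, hs⟩ := summable_iff_vanishing_norm.1 hs ε hε
  refine ⟨s.sup fun q => max q.1 q.2, fun t ht => ?_⟩
  refine ((le_abs_self _).trans_lt (hs t (disjoint_left.2 fun q hq hq' => ?_))).le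
  have h1 := le_sup (f := fun q : ℕ × ℕ => max q.1 q.2) hq'
  have h2 := ht q hq
  omega

theorem Bub.aa_mul (h : M.Bub B) {n m : ℕ} {c : ℝ} (hc : ∀ k, k ≤ n + m → M.aa k ≤ c) :
    M.aa n * M.aa m ≤ B * c := by
  have h0 : 0 ≤ c := (M.aa_nonneg 0).trans (hc 0 (Nat.zero_le _))
  have h1 : M.aa n * M.aa m = M.E n fun P => M.E m fun F => ind (SA P) * ind (SA F) * 1 := by
    unfold aa
    rw [← E_mulc]
    refine M.E_congr fun P _ => ?_
    rw [← E_cmul]
    exact M.E_congr fun F _ => (mul_one _).symm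
  rw [h1, first_hit]
  refine le_trans (sum_le_sum fun q _ => ?_)
    (le_trans (sum_mul ..).ge (mul_le_mul_of_nonneg_right (h.bdd _) h0))
  refine (le_abs_self _).trans ((M.II_le n m (by simp) q).trans ?_)
  exact mul_le_mul_of_nonneg_left (hc _ (by omega)) (M.LL_nonneg q)

theorem Bub.aa_le (h : M.Bub B) (n : ℕ) : M.aa n ≤ B := by
  have hB := h.one_le_B
  by_contra hn
  push Not at hn
  have hn0 : n ≠ 0 := by
    rintro rfl
    exact absurd ((ind_le_one _).trans hB) (not_le.2 hn)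
  set r := M.aa n / B with hr
  have hr1 : 1 < r := (one_lt_div (by linarith)).2 hn
  have key : ∀ k : ℕ, ∃ i, i ≤ 2 ^ k * n ∧ B * r ^ 2 ^ k ≤ M.aa i := by
    intro k
    induction k with
    | zero => exact ⟨n, by simp, by rw [hr]; simp; field_simp; rfl⟩
    | succ k ih =>
      obtain ⟨i, hi, hi'⟩ := ih
      obtain ⟨j, hj, hj'⟩ := exists_max_image (range (i + i + 1)) M.aa ⟨0, by simp⟩
      have h1 := h.aa_mul (n := i) (m := i) (c := M.aa j) fun k hk => hj' k (by simp; omega)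
      refine ⟨j, by simp at hj; rw [pow_succ, mul_right_comm]; omega, ?_⟩
      have h2 : 0 ≤ B * r ^ 2 ^ k := by positivity
      have h3 := mul_le_mul hi' hi' h2 (M.aa_nonneg i)
      refine le_of_mul_le_mul_left ?_ (show 0 < B by linarith)
      rw [pow_succ 2 k, pow_mul]
      nlinarith
  have hx : 1 < r ^ ((2 * n : ℕ) : ℝ)⁻¹ := Real.one_lt_rpow hr1 (by positivity)
  have hx2 := Real.rpow_inv_natCast_pow (x := r) (n := 2 * n) (by linarith) (by omega)
  set x := r ^ ((2 * n : ℕ) : ℝ)⁻¹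
  obtain ⟨C, hC⟩ := h.sub x hx
  have hC0 : 0 ≤ C := by
    have := (h.one_le 0).trans (hC 0)
    simp at this; linarith
  obtain ⟨k, hk⟩ := pow_unbounded_of_one_lt C hx
  obtain ⟨i, hi, hi'⟩ := key k
  have h1 : x ^ i ≤ x ^ (2 ^ k * n) := pow_le_pow_right₀ hx.le hi
  have h2 : x ^ k ≤ x ^ (2 ^ k * n) := pow_le_pow_right₀ hx.le
    ((Nat.lt_two_pow_self).le.trans (Nat.le_mul_of_pos_right _ (by omega)))
  have h3 : r ^ 2 ^ k = x ^ (2 ^ k * n) * x ^ (2 ^ k * n) := by
    rw [← hx2, ← pow_mul, ← pow_add]; congr 1; ring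
  have h4 : 0 < x ^ (2 ^ k * n) := by positivity
  have h5 := hi'.trans ((hC i).trans (mul_le_mul_of_nonneg_left h1 hC0))
  rw [h3] at h5
  nlinarith

theorem Bub.II_tail (h : M.Bub B) {K : ℕ} {ε : ℝ} (hT : M.Tail K ε) (n m : ℕ)
    {Φ : List V → List V → ℝ} (hΦ : ∀ P F, |Φ P F| ≤ 1) (s : Finset (ℕ × ℕ))
    (hs : ∀ q ∈ s, K < q.1 ∨ K < q.2) : |∑ q ∈ s, M.II n m Φ q| ≤ ε * B := by
  refine (abs_sum_le_sum_abs _ _).trans (le_trans (sum_le_sum fun q _ => ?_)
    (le_trans (sum_mul ..).ge (mul_le_mul_of_nonneg_right (hT s hs) (by linarith [h.one_le_B]))))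
  exact (M.II_le n m hΦ q).trans (mul_le_mul_of_nonneg_left (h.aa_le _) (M.LL_nonneg q))

/-- the square of loop lengths up to `K` -/
def sq (K : ℕ) : Finset (ℕ × ℕ) := range (K + 1) ×ˢ range (K + 1)

theorem Bub.trunc (h : M.Bub B) {K : ℕ} {ε : ℝ} (hT : M.Tail K ε) {n m : ℕ} (hn : K ≤ n)
    (hm : K ≤ m) {Φ : List V → List V → ℝ} (hΦ : ∀ P F, |Φ P F| ≤ 1) :
    |(M.E n fun P => M.E m fun F => ind (SA P) * ind (SA F) * Φ P F) -
      ∑ q ∈ sq K, M.II n m Φ q| ≤ ε * B := by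
  have hsub : sq K ⊆ range (n + 1) ×ˢ range (m + 1) := fun q hq => by
    simp only [sq, mem_product, mem_range] at hq ⊢; omega
  rw [first_hit, ← sum_sdiff hsub, add_sub_cancel_right]
  refine h.II_tail hT n m hΦ _ fun q hq => ?_
  simp only [sq, mem_sdiff, mem_product, mem_range] at hq
  omega

theorem Bub.late (h : M.Bub B) {K : ℕ} {ε : ℝ} (hT : M.Tail K ε) (b n : ℕ) {k : ℕ} (hk : K ≤ k) :
    (M.E b fun y => M.E k fun g => M.E n fun f =>
      ind (SA (y ++ g) ∧ SA (g ++ f) ∧ ¬ SA (y ++ (g ++ f)))) ≤ ε * B := by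
  classical
  set Φ : List V → List V → ℝ := fun P F => ind (SA (P ++ F.take k) ∧ ¬ SA (P ++ F)) with hΦ
  have h1 : (M.E b fun y => M.E k fun g => M.E n fun f =>
      ind (SA (y ++ g) ∧ SA (g ++ f) ∧ ¬ SA (y ++ (g ++ f)))) =
      M.E b fun P => M.E (k + n) fun F => ind (SA P) * ind (SA F) * Φ P F := by
    refine M.E_congr fun y _ => ?_
    rw [E_append]
    refine M.E_congr fun g hg => M.E_congr fun f _ => ?_
    simp only [hΦ, List.take_left' hg, ← ind_and]
    exact ind_congr ⟨fun h => ⟨⟨h.1.left, h.2.1⟩, h.1, h.2.2⟩, fun h => ⟨h.2.1, h.1.2, h.2.2⟩⟩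
  rw [h1, first_hit, ← sum_filter_add_sum_filter_not _ (fun q : ℕ × ℕ => K < q.2),
    sum_eq_zero (s := filter (fun q : ℕ × ℕ => ¬ K < q.2) _), add_zero]
  · refine (le_abs_self _).trans (h.II_tail hT _ _ (fun P F => ?_) _ fun q hq => ?_)
    · rw [abs_ind]; exact ind_le_one _
    · exact Or.inr (mem_filter.1 hq).2
  · intro q hq
    have hq2 := (mem_filter.1 hq).2
    unfold II
    rw [← M.E_zero (b - q.1)]
    refine M.E_congr fun p _ => ?_
    rw [← M.E_zero q.1]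
    refine M.E_congr fun x _ => ?_
    rw [← M.E_zero q.2]
    refine M.E_congr fun y hy => ?_
    rw [← M.E_zero (k + n - q.2)]
    refine M.E_congr fun f hf => ?_
    rw [← ind_and]
    refine ind_neg fun hh => hh.2.2 ?_
    exact hh.1.late (List.take_append_drop k _).symm (by simp; omega) hh.2.1

end Model

end Pool.Agent.Lib.BU93
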