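import Pool.Agent.Lib.BU93.Tails

/-! A finite bubble diagram forces almost diffusive displacement. -/

namespace Pool.Agent.Lib.BU93

open Finset

variable {V : Type} [AddCommGroup V]

namespace Model

variable {M : Model V} {ℓ : V →+ ℝ} {B : ℝ}

theorem Bub.split (h : M.Bub B) (i j : ℕ) (R : ℝ) :
    M.ff ℓ (i + j) R ≤ M.ff ℓ i (R / 2) * B + B * M.ff ℓ j (R / 2) := by
  refine le_trans ?_ (add_le_add (mul_le_mul_of_nonneg_left (h.aa_le j) (M.ff_nonneg ℓ i _))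
    (mul_le_mul_of_nonneg_right (h.aa_le i) (M.ff_nonneg ℓ j _)))
  unfold ff aa
  rw [E_append, ← E_mulc, ← E_mulc, ← E_add]
  refine M.E_le fun a _ => ?_
  rw [← E_cmul, ← E_cmul, ← E_add]
  refine M.E_le fun b _ => ?_
  rw [← ind_and, ← ind_and]
  by_cases h1 : R / 2 ≤ |ℓ a.sum|
  · exact le_trans (ind_mono fun hh => ⟨⟨hh.1.left, h1⟩, hh.1.right⟩)
      (le_add_of_nonneg_right (ind_nonneg _))
  · refine le_trans (ind_mono fun hh => ⟨hh.1.left, hh.1.right, ?_⟩)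
      (le_add_of_nonneg_left (ind_nonneg _))
    have h2 := hh.2
    rw [List.sum_append, map_add] at h2
    linarith [abs_add_le (ℓ a.sum) (ℓ b.sum)]

theorem Bub.cheb (h : M.Bub B) (hℓ : ∀ e ∈ M.S, |ℓ e| ≤ 1) {δ : ℝ} (hδ : 0 < δ) :
    ∃ D : ℕ, ∀ (L s t : ℕ) (r R β β' : ℝ), 0 < r → 0 < R → 1 ≤ L → 1 ≤ s → L * D ≤ s →
      t ≤ L * s → 4 * (L * D : ℝ) ≤ R → (∀ n, n ≤ s → M.ff ℓ n r ≤ β) →
      (∀ n, n ≤ 2 * s → M.ff ℓ n (R / 2) ≤ β') →
      M.ff ℓ t R ≤ (L * (B ^ 2 * β) + 16 * ((L * B + L ^ 2 * δ) * r ^ 2) / R ^ 2) * B + B * β' := by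
  obtain ⟨ι, _, w, g, hw, hw1, hx⟩ := h.cross hδ
  refine ⟨univ.sup g, fun L s t r R β β' hr hR hL hs hD ht hR4 hβ hβ' => ?_⟩
  set D := univ.sup g
  have hB := h.one_le_B
  have hDs : D ≤ s := le_trans (Nat.le_mul_of_pos_left D hL) hD
  have hk : t / s ≤ L := Nat.div_le_of_le_mul (by rwa [mul_comm])
  have hk1 := Nat.div_add_mod t s
  have hk2 := Nat.mod_lt t hs
  set k := t / s
  obtain ⟨N, U, h1, h2, -, h4, h5⟩ := h.blocks hℓ hδ.le hw hw1 (D := D)
    (fun i => le_sup (mem_univ i)) hx (s - D) hr k Unit (fun _ => 1) (fun _ => 0) (by simp)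
    (by simp)
  rw [Nat.sub_add_cancel hDs, mul_comm] at h2
  have h6 : k * D ≤ L * D := Nat.mul_le_mul_right D hk
  rw [Nat.mul_sub, mul_comm k s] at h1
  have h7 := h.split (ℓ := ℓ) N (t - N) R
  rw [Nat.add_sub_cancel' (by omega)] at h7
  refine h7.trans (add_le_add (mul_le_mul_of_nonneg_right ?_ (by linarith))
    (mul_le_mul_of_nonneg_left (hβ' _ (by omega)) (by linarith)))
  have hk' : (k : ℝ) ≤ L := by exact_mod_cast hk
  have h6' : (k : ℝ) * D ≤ L * D := by exact_mod_cast h6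
  have h8 := h5 0
  simp only [W, E, List.append_nil, univ_unique, sum_singleton, one_mul, mul_one] at h4 h8
  have h9 : M.ff ℓ N (R / 2) ≤ (M.E N fun p => ind (SA p ∧ (k * D : ℝ) < |ℓ p.sum - U p|)) +
      16 / R ^ 2 * M.E N fun p => ind (SA p) * U p ^ 2 := by
    rw [← E_cmul, ← E_add]
    refine M.E_le fun p _ => ?_
    have a0 : 0 ≤ 16 / R ^ 2 * (ind (SA p) * U p ^ 2) :=
      mul_nonneg (by positivity) (mul_nonneg (ind_nonneg _) (sq_nonneg _))
    by_cases a1 : (k * D : ℝ) < |ℓ p.sum - U p|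
    · exact le_trans (ind_mono fun hh => ⟨hh.1, a1⟩) (le_add_of_nonneg_right a0)
    · refine le_trans ?_ (le_add_of_nonneg_left (ind_nonneg _))
      by_cases a2 : SA p ∧ R / 2 ≤ |ℓ p.sum|
      · rw [ind_pos a2, ind_pos a2.1, one_mul, div_mul_eq_mul_div, one_le_div (by positivity)]
        have a3 : R / 4 ≤ |U p| := by
          linarith [abs_sub_abs_le_abs_sub (ℓ p.sum) (U p), a2.2]
        nlinarith [sq_abs (U p), abs_nonneg (U p)]
      · rw [ind_neg a2]; exact a0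
  have h10 := hβ (s - D) (Nat.sub_le _ _)
  have h11 := M.ff_nonneg ℓ (s - D) r
  refine h9.trans (add_le_add (h8.trans (by gcongr)) ?_)
  rw [div_mul_eq_mul_div]
  gcongr
  exact h4.trans (by gcongr)

theorem Bub.levels (h : M.Bub B) (hℓ : ∀ e ∈ M.S, |ℓ e| ≤ 1) {q : ℕ} (hq : 1 ≤ q) :
    ∃ A : ℝ, 0 < A ∧ ∀ m k n : ℕ, n ≤ (9 ^ q) ^ m →
      M.ff ℓ n (A * 3 ^ ((q + 1) * m + k)) ≤ (1 / 27) ^ k := by
  have hB := h.one_le_B
  set τ := 9 ^ q with hτ
  have hτ9 : 9 ≤ τ := Nat.le_self_pow (by omega) 9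
  have hT : (9 : ℝ) ≤ τ := by exact_mod_cast hτ9
  have hB3 : 1 ≤ B ^ 3 := one_le_pow₀ hB
  set θ : ℝ := 1 / (4 * B ^ 3 * τ ^ 2) with hθ
  have hθ0 : 0 < θ := by positivity
  have hθ1 : θ * (4 * B ^ 3 * τ ^ 2) = 1 := by rw [hθ]; field_simp
  have hθ2 : θ ≤ 1 / 27 := one_div_le_one_div_of_le (by norm_num) (by nlinarith)
  set ε : ℝ := θ / (4 * τ) with hε
  have hε0 : 0 < ε := by positivity
  have hε1 : ε * (4 * τ) = θ := by rw [hε]; field_simp
  obtain ⟨k0, hk0⟩ := pow_unbounded_of_one_lt (128 * B ^ 2 / ε) (show (1 : ℝ) < 9 by norm_num)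
  rw [div_lt_iff₀ hε0] at hk0
  have hk1 : 1 ≤ k0 := by
    by_contra h0
    rw [show k0 = 0 by omega] at hk0
    nlinarith
  set L := τ ^ (2 * k0) with hL
  have hL1 : 1 ≤ L := Nat.one_le_pow _ _ (by omega)
  have hL0 : (0 : ℝ) < L := by exact_mod_cast hL1
  obtain ⟨D, hD⟩ := h.cheb hℓ (δ := 1 / L) (by positivity)
  have hm1 : L * D ≤ τ ^ (L * D) := (Nat.lt_pow_self (by omega)).le
  set A : ℝ := τ ^ (2 * k0 + L * D) + 1 + 4 * (L * D) with hA
  have hA0 : 0 < A := by positivity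
  have hA3 : ∀ j : ℕ, A ≤ A * 3 ^ j := fun j =>
    le_mul_of_one_le_right hA0.le (one_le_pow₀ (by norm_num))
  suffices key : ∀ m k n : ℕ, n ≤ τ ^ m → M.ff ℓ n (A * 3 ^ ((q + 1) * m + k)) ≤ ε * θ ^ k by
    refine ⟨A, hA0, fun m k n hn => (key m k n hn).trans ?_⟩
    exact (mul_le_of_le_one_left (by positivity) (by nlinarith)).trans
      (pow_le_pow_left₀ hθ0.le hθ2 k)
  intro m
  induction m using Nat.strong_induction_on with
  | _ m ih =>
  by_cases hm : m < 2 * k0 + L * D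
  · intro k n hn
    refine (ff_zero hℓ (lt_of_lt_of_le ?_ (hA3 _))).trans (by positivity)
    have h1 : (n : ℝ) ≤ τ ^ (2 * k0 + L * D) := by
      exact_mod_cast hn.trans (Nat.pow_le_pow_right (by omega) hm.le)
    have h2 : (0 : ℝ) ≤ 4 * (L * D) := by positivity
    linarith
  obtain ⟨j, rfl⟩ : ∃ j, m = j + 2 * k0 := ⟨m - 2 * k0, by omega⟩
  intro k
  induction k with
  | zero =>
    intro n hn
    have h1 := hD L (τ ^ j) n (A * 3 ^ ((q + 1) * j + k0)) (A * 3 ^ ((q + 1) * (j + 2 * k0) + 0))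
      (ε * θ ^ k0) (ε * θ ^ 1) (by positivity) (by positivity) hL1 (Nat.one_le_pow _ _ (by omega))
      (hm1.trans (Nat.pow_le_pow_right (by omega) (by omega))) (by rwa [hL, ← pow_add, add_comm])
      (le_trans (le_add_of_nonneg_left (by positivity)) (hA3 _)) (ih j (by omega) k0)
      fun i hi => le_trans (M.ff_mono ℓ i ?_) (ih (j + 1) (by omega) 1 i (hi.trans (by
        rw [pow_succ, mul_comm]; exact Nat.mul_le_mul_left _ (by omega))))
    · refine h1.trans ?_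
      have e1 : (A * 3 ^ ((q + 1) * (j + 2 * k0) + 0)) ^ 2 =
          (A * 3 ^ ((q + 1) * j + k0)) ^ 2 * (L * 9 ^ k0) := by
        have h9 : ∀ n : ℕ, (9 : ℝ) ^ n = 3 ^ (2 * n) := fun n => by rw [pow_mul]; norm_num
        rw [hL, hτ]; push_cast
        simp only [← pow_mul, h9]
        ring
      have e2 : 16 * (((L : ℝ) * B + L ^ 2 * (1 / L)) * (A * 3 ^ ((q + 1) * j + k0)) ^ 2) /
          (A * 3 ^ ((q + 1) * (j + 2 * k0) + 0)) ^ 2 = 16 * (B + 1) / 9 ^ k0 := by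
        rw [e1]; field_simp
      have e3 : (L : ℝ) * θ ^ k0 ≤ 1 / (4 * B ^ 3) := by
        have : (L : ℝ) * θ ^ k0 = (1 / (4 * B ^ 3)) ^ k0 := by
          rw [hL]; push_cast
          rw [pow_mul, ← mul_pow, hθ]; congr 1; field_simp
        rw [this]
        exact pow_le_of_le_one (by positivity) ((div_le_one (by positivity)).2 (by linarith))
          (by omega)
      rw [le_div_iff₀ (by positivity)] at e3
      have e4 : 16 * (B + 1) / 9 ^ k0 * B ≤ ε / 4 := by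
        rw [div_mul_eq_mul_div, div_le_iff₀ (by positivity)]; nlinarith
      have e5 : θ * B ≤ 1 / 4 := by
        have : B ≤ B ^ 3 * τ ^ 2 := (le_self_pow₀ hB (by norm_num)).trans
          (le_mul_of_one_le_right (by positivity) (by nlinarith))
        nlinarith
      rw [e2]
      nlinarith [mul_le_mul_of_nonneg_left e3 hε0.le, mul_le_mul_of_nonneg_left e5 hε0.le]
    · have h2 : (3 : ℝ) ^ ((q + 1) * (j + 1) + 1 + 1) ≤ 3 ^ ((q + 1) * (j + 2 * k0) + 0) :=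
        pow_le_pow_right₀ (by norm_num) (by nlinarith)
      rw [pow_succ] at h2
      have h3 : (0 : ℝ) < 3 ^ ((q + 1) * (j + 1) + 1) := by positivity
      nlinarith
  | succ k ihk =>
    intro n hn
    obtain ⟨i, hi⟩ : ∃ i, j + 2 * k0 = i + 1 := ⟨j + 2 * k0 - 1, by omega⟩
    rw [hi] at ih ihk hn ⊢
    have h1 := h.recur (ℓ := ℓ) (n := n) (N := τ) (s := τ ^ i) (by rwa [← pow_succ'])
      (r := A * 3 ^ ((q + 1) * (i + 1) + k)) (α := ε * θ ^ k) (β := ε * θ ^ (k + 1 + q))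
      (by positivity) (fun n' hn' => ihk n' (hn'.trans hn)) fun n' hn' => by
        rw [show (q + 1) * (i + 1) + k = (q + 1) * i + (k + 1 + q) by ring]
        exact ih i (by omega) _ n' hn'
    rw [show A * 3 ^ ((q + 1) * (i + 1) + (k + 1)) = 3 * (A * 3 ^ ((q + 1) * (i + 1) + k)) by ring]
    refine h1.trans ?_
    have e1 : θ ^ k ≤ 1 := pow_le_one₀ hθ0.le (by linarith)
    have e2 : θ ^ q ≤ θ := pow_le_of_le_one hθ0.le (by linarith) (by omega)
    have e3 : (τ : ℝ) * B ^ 2 * θ ^ q ≤ 1 / 2 := by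
      have a1 : (τ : ℝ) * B ^ 2 ≤ B ^ 3 * τ ^ 2 := by
        rw [mul_comm]
        exact mul_le_mul (pow_le_pow_right₀ hB (by norm_num)) (by nlinarith) (by linarith)
          (by positivity)
      nlinarith [mul_le_mul a1 e2 (by positivity) (by positivity)]
    have e4 : ((τ : ℝ) + 1) * ε * θ ^ k ≤ θ / 2 := by
      nlinarith [mul_le_mul_of_nonneg_left e1 (show 0 ≤ ((τ : ℝ) + 1) * ε by positivity)]
    have e5 : 0 ≤ ε * θ ^ k := by positivity
    have e6 := mul_le_mul_of_nonneg_left e4 e5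
    have e7 := mul_le_mul_of_nonneg_left e3 (mul_nonneg e5 hθ0.le)
    rw [pow_add, pow_succ θ k]
    nlinarith

end Model

end Pool.Agent.Lib.BU93
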