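import Pool.Agent.Lib.BU93.Hit

/-! Mixing of the self-avoiding walk when the bubble diagram is finite. -/

namespace Pool.Agent.Lib.BU93

open Finset

variable {V : Type} [AddCommGroup V]

theorem avg_le {ι : Type} [Fintype ι] {w f : ι → ℝ} {c : ℝ} (hw : ∀ i, 0 ≤ w i)
    (hw1 : ∑ i, w i = 1) (h : ∀ i, f i ≤ c) : ∑ i, w i * f i ≤ c :=
  (sum_le_sum fun i _ => mul_le_mul_of_nonneg_left (h i) (hw i)).trans
    (by rw [← sum_mul, hw1, one_mul])

theorem le_avg {ι : Type} [Fintype ι] {w f : ι → ℝ} {c : ℝ} (hw : ∀ i, 0 ≤ w i)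
    (hw1 : ∑ i, w i = 1) (h : ∀ i, c ≤ f i) : c ≤ ∑ i, w i * f i :=
  le_trans (by rw [← sum_mul, hw1, one_mul])
    (sum_le_sum fun i _ => mul_le_mul_of_nonneg_left (h i) (hw i))

namespace Model

variable (M : Model V)

theorem E_dist {n : ℕ} {f g h : List V → ℝ} (H : ∀ l, l.length = n → |f l - g l| ≤ h l) :
    |M.E n f - M.E n g| ≤ M.E n h := by
  rw [← E_sub]; exact M.E_abs H

theorem E_comm2 (h n a b : ℕ) (F : List V → List V → List V → List V → ℝ) :
    (M.E h fun g => M.E n fun f => M.E a fun x => M.E b fun y => F g f x y) =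
      M.E a fun x => M.E b fun y => M.E h fun g => M.E n fun f => F g f x y := by
  rw [M.E_congr fun g _ => M.E_comm n a fun f x => M.E b fun y => F g f x y, E_comm]
  refine M.E_congr fun x _ => ?_
  rw [M.E_congr fun g _ => M.E_comm n b fun f y => F g f x y, E_comm]

/-- correlation of a function of the first `n` steps with a function of the last `m` steps -/
noncomputable def W (n m : ℕ) (X Y : List V → ℝ) : ℝ :=
  M.E n fun p => M.E m fun f => ind (SA (p ++ f)) * X p * Y f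

theorem W_shift (n g m : ℕ) (X Y : List V → ℝ) :
    M.W n (g + m) X (fun f => Y (f.drop g)) = M.W (n + g) m (fun w => X (w.take n)) Y := by
  unfold W
  rw [M.E_append n g]
  refine M.E_congr fun p hp => ?_
  rw [E_append]
  refine M.E_congr fun c hc => M.E_congr fun f _ => ?_
  beta_reduce
  rw [List.take_left' hp, List.drop_left' hc, List.append_assoc]

theorem W_lin (n m : ℕ) (c : ℝ) (X X' Y : List V → ℝ) :
    M.W n m (fun w => c * X w - X' w) Y = c * M.W n m X Y - M.W n m X' Y := by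
  unfold W
  rw [← E_cmul, ← E_sub]
  refine M.E_congr fun p _ => ?_
  rw [← E_cmul, ← E_sub]
  exact M.E_congr fun f _ => by ring

theorem W_congr {n m : ℕ} {X X' : List V → ℝ} (Y : List V → ℝ) (h : ∀ w, X w = X' w) :
    M.W n m X Y = M.W n m X' Y := by
  rw [funext h]

theorem W_cmul (n m : ℕ) (c : ℝ) (X Y : List V → ℝ) :
    M.W n m (fun w => c * X w) Y = c * M.W n m X Y := by
  unfold W
  rw [← E_cmul]
  refine M.E_congr fun p _ => ?_
  rw [← E_cmul]
  exact M.E_congr fun f _ => by ring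

theorem W_abs (n m : ℕ) (X : List V → ℝ) {Y : List V → ℝ} (hY : ∀ l, |Y l| ≤ 1) :
    |M.W n m X Y| ≤ M.W n m (fun l => |X l|) fun _ => 1 :=
  M.E_abs fun p _ => M.E_abs fun f _ => by
    rw [abs_mul, abs_mul, abs_ind]
    exact mul_le_mul_of_nonneg_left (hY f) (mul_nonneg (ind_nonneg _) (abs_nonneg _))

theorem E_odd (n H : ℕ) {Y : List V → ℝ} (hY : ∀ l, Y (l.map Neg.neg) = -Y l) :
    (M.E n fun F => ind (SA F) * Y (F.drop H)) = 0 := by
  have h1 := M.E_neg n fun F => ind (SA F) * Y (F.drop H)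
  have h2 := M.E_cmul n (-1) fun F => ind (SA F) * Y (F.drop H)
  have h3 : (M.E n fun F => ind (SA (F.map Neg.neg)) * Y ((F.map Neg.neg).drop H)) =
      M.E n fun F => -1 * (ind (SA F) * Y (F.drop H)) :=
    M.E_congr fun F _ => by rw [← List.map_drop, hY, ind_congr (SA_neg F)]; ring
  linarith

/-- mixing with rate `κ` and error `ε` for the gap law given by `w` and `g` -/
def MixAt (κ ε : ℝ) {ι : Type} [Fintype ι] (w : ι → ℝ) (g : ι → ℕ) : Prop :=
  ∀ (n1 n2 : ℕ) (X Y : List V → ℝ), (∀ l, |X l| ≤ 1) → (∀ l, |Y l| ≤ 1) →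
    (∀ l, Y (l.map Neg.neg) = -Y l) →
    |∑ i, w i * M.W n1 (g i + n2) X fun f => Y (f.drop (g i))| ≤
      κ * ∑ i, w i * M.W n1 (g i + n2) (fun l => |X l|) (fun _ => 1) + ε

/-- mixing with rate `κ` -/
def Mix (κ : ℝ) : Prop :=
  ∀ ε : ℝ, 0 < ε → ∃ (ι : Type) (_ : Fintype ι) (w : ι → ℝ) (g : ι → ℕ),
    (∀ i, 0 ≤ w i) ∧ ∑ i, w i = 1 ∧ M.MixAt κ ε w g

theorem mix_one : M.Mix 1 := fun ε hε =>
  ⟨Unit, inferInstance, fun _ => 1, fun _ => 0, by simp, by simp, fun n1 n2 X Y _ hY _ => by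
    simp only [univ_unique, sum_singleton, one_mul]
    exact (M.W_abs _ _ X fun l => hY _).trans (by linarith)⟩

/-- weight of the loops attached at position `i` -/
noncomputable def tt (i : ℕ) (q : ℕ × ℕ) (w : List V) : ℝ :=
  M.E q.1 fun x => M.E q.2 fun y => ind (Hit (w.take i) x y (w.drop i))

theorem tt_nonneg (i : ℕ) (q : ℕ × ℕ) (w : List V) : 0 ≤ M.tt i q w :=
  M.E_nonneg fun _ => M.E_nonneg fun _ => ind_nonneg _

theorem tt_le (i : ℕ) (q : ℕ × ℕ) (w : List V) : M.tt i q w ≤ M.LL q :=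
  M.E_le fun _ _ => M.E_le fun _ _ => ind_mono fun h => ⟨h.1.right, h.2.1.left, h.2.2.1⟩

variable {M} {B : ℝ}

theorem Bub.W_le (h : M.Bub B) (n m : ℕ) {X : List V → ℝ} (hX : ∀ w, 0 ≤ X w) :
    M.W n m X (fun _ => 1) ≤ (M.E n fun P => ind (SA P) * X P) * B := by
  unfold W
  rw [← E_mulc]
  refine M.E_le fun p _ => ?_
  refine le_trans ?_ (mul_le_mul_of_nonneg_left (h.aa_le m) (mul_nonneg (ind_nonneg _) (hX p)))
  unfold aa
  rw [← E_cmul]
  refine M.E_le fun f _ => ?_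
  rw [mul_one, mul_right_comm, ← ind_and]
  exact mul_le_mul_of_nonneg_right (ind_mono fun h => ⟨h.left, h.right⟩) (hX p)

theorem Bub.stage_term (h : M.Bub B) {k : ℕ} {ε : ℝ} (hT : M.Tail k ε) (n1 n2 a' a b g : ℕ)
    (hk : k ≤ g) {X Y : List V → ℝ} (hX : ∀ w, |X w| ≤ 1) (hY : ∀ w, |Y w| ≤ 1) :
    |M.W (n1 + (a' + g)) n2 (fun w => M.tt (n1 + a') (a, b) w * X (w.take n1)) Y -
      M.II (n1 + (a' + a)) (b + g + n2) (fun P F => X (P.take n1) * Y (F.drop (b + g))) (a, b)| ≤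
      B * (B * (ε * B)) := by
  have e1 : M.W (n1 + (a' + g)) n2 (fun w => M.tt (n1 + a') (a, b) w * X (w.take n1)) Y =
      M.E (n1 + a') fun p => M.E a fun x => M.E b fun y => M.E g fun c => M.E n2 fun f =>
        ind (SA (p ++ (c ++ f))) * ind (Hit p x y c) * (X (p.take n1) * Y f) := by
    unfold W tt
    rw [← add_assoc, E_append]
    refine M.E_congr fun p hp => ?_
    rw [← E_comm2]
    refine M.E_congr fun c _ => M.E_congr fun f _ => ?_
    beta_reduce
    rw [List.take_left' hp, List.drop_left' hp, List.append_assoc,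
      List.take_append_of_le_length (by omega)]
    simp only [E_mulc, E_cmul]
    ring
  have e2 : M.II (n1 + (a' + a)) (b + g + n2)
      (fun P F => X (P.take n1) * Y (F.drop (b + g))) (a, b) =
      M.E (n1 + a') fun p => M.E a fun x => M.E b fun y => M.E g fun c => M.E n2 fun f =>
        ind (Hit p x y (c ++ f)) * (X (p.take n1) * Y f) := by
    unfold II
    simp only
    rw [show n1 + (a' + a) - a = n1 + a' by omega, show b + g + n2 - b = g + n2 by omega]
    refine M.E_congr fun p hp => M.E_congr fun x _ => M.E_congr fun y hy => ?_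
    rw [E_append]
    refine M.E_congr fun c hc => M.E_congr fun f _ => ?_
    rw [List.take_append_of_le_length (by omega), ← List.append_assoc,
      List.drop_left' (by simp [hy, hc])]
  rw [e1, e2]
  have hB : 0 ≤ B := by linarith [h.one_le_B]
  have hl := h.late hT b n2 hk
  refine le_trans (M.E_dist (h := fun p => M.E a fun x => M.E b fun y => M.E g fun c =>
    M.E n2 fun f => ind (SA p) * (ind (SA x) *
      ind (SA (y ++ c) ∧ SA (c ++ f) ∧ ¬ SA (y ++ (c ++ f))))) fun p _ =>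
    M.E_dist fun x _ => M.E_dist fun y _ => M.E_dist fun c _ => M.E_dist fun f _ => ?_) ?_
  · rw [← sub_mul, abs_mul, abs_mul, ← ind_and, ← ind_and, ← ind_and]
    refine (mul_le_of_le_one_right (abs_nonneg _)
      (mul_le_one₀ (hX _) (abs_nonneg _) (hY _))).trans ?_
    by_cases h1 : Hit p x y (c ++ f)
    · rw [ind_pos h1, ind_pos ⟨h1.sa, h1.cut⟩, sub_self, abs_zero]
      exact ind_nonneg _
    · rw [ind_neg h1, sub_zero, abs_ind]
      exact ind_mono fun h2 => ⟨h2.1.left, h2.2.1.right, h2.2.2.1, h2.1.right,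
        fun h3 => h1 (h2.2.ext h2.1 h3)⟩
  · simp only [E_cmul, E_mulc]
    have h0 : 0 ≤ ε * B := mul_nonneg hT.nonneg hB
    refine mul_le_mul (h.aa_le _) (mul_le_mul (h.aa_le _) hl ?_ hB) (mul_nonneg (M.aa_nonneg _) ?_) hB
    all_goals exact M.E_nonneg fun _ => M.E_nonneg fun _ => M.E_nonneg fun _ => ind_nonneg _

theorem Bub.stage (h : M.Bub B) {K : ℕ} {ε ε' : ℝ} (hT : M.Tail K ε) {H : ℕ}
    (hH : K ≤ H) (hT' : M.Tail (H - K) ε') (n1 n2 : ℕ) {X Y : List V → ℝ}
    (hX : ∀ w, |X w| ≤ 1) (hY : ∀ w, |Y w| ≤ 1) :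
    |∑ q ∈ sq K, M.W (n1 + (K - q.1 + (H - q.2))) n2
        (fun w => M.tt (n1 + (K - q.1)) q w * X (w.take n1)) Y -
      (M.E (n1 + K) fun P => ind (SA P) * X (P.take n1)) *
        M.E (H + n2) fun F => ind (SA F) * Y (F.drop H)| ≤
      ε * B + ((K : ℝ) + 1) ^ 2 * (B * (B * (ε' * B))) := by
  have h1 := h.trunc hT (n := n1 + K) (m := H + n2) (by omega) (by omega)
    (Φ := fun P F => X (P.take n1) * Y (F.drop H))
    fun P F => by rw [abs_mul]; exact mul_le_one₀ (hX _) (abs_nonneg _) (hY _)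
  have h2 : (M.E (n1 + K) fun P => M.E (H + n2) fun F =>
      ind (SA P) * ind (SA F) * (X (P.take n1) * Y (F.drop H))) =
      (M.E (n1 + K) fun P => ind (SA P) * X (P.take n1)) *
        M.E (H + n2) fun F => ind (SA F) * Y (F.drop H) := by
    rw [← E_mulc]
    refine M.E_congr fun P _ => ?_
    rw [← E_cmul]
    exact M.E_congr fun F _ => by ring
  rw [h2, abs_sub_comm] at h1
  have h3 : |∑ q ∈ sq K, M.W (n1 + (K - q.1 + (H - q.2))) n2
      (fun w => M.tt (n1 + (K - q.1)) q w * X (w.take n1)) Y -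
      ∑ q ∈ sq K, M.II (n1 + K) (H + n2) (fun P F => X (P.take n1) * Y (F.drop H)) q| ≤
      ((K : ℝ) + 1) ^ 2 * (B * (B * (ε' * B))) := by
    rw [← sum_sub_distrib]
    refine (abs_sum_le_sum_abs _ _).trans 
      ((sum_le_card_nsmul _ _ (B * (B * (ε' * B))) fun q hq => ?_).trans ?_)
    · simp only [sq, mem_product, mem_range] at hq
      have h4 := h.stage_term hT' n1 n2 (K - q.1) q.1 q.2 (H - q.2) (by omega) hX hY
      rw [show K - q.1 + q.1 = K by omega, show q.2 + (H - q.2) = H by omega] at h4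
      exact h4
    · simp only [sq, card_product, card_range, nsmul_eq_mul]
      push_cast
      rw [pow_two]
  linarith [abs_sub_le (∑ q ∈ sq K, M.W (n1 + (K - q.1 + (H - q.2))) n2
      (fun w => M.tt (n1 + (K - q.1)) q w * X (w.take n1)) Y)
      (∑ q ∈ sq K, M.II (n1 + K) (H + n2) (fun P F => X (P.take n1) * Y (F.drop H)) q)
      ((M.E (n1 + K) fun P => ind (SA P) * X (P.take n1)) *
        M.E (H + n2) fun F => ind (SA F) * Y (F.drop H))]

theorem MixAt.scale {κ ε : ℝ} {ι : Type} [Fintype ι] {w : ι → ℝ} {g : ι → ℕ}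
    (h : M.MixAt κ ε w g) (n1 n2 : ℕ) {X Y : List V → ℝ} {c : ℝ} (hc : 0 ≤ c)
    (hX : ∀ l, |X l| ≤ c) (hY : ∀ l, |Y l| ≤ 1) (hY' : ∀ l, Y (l.map Neg.neg) = -Y l) :
    |∑ i, w i * M.W n1 (g i + n2) X fun f => Y (f.drop (g i))| ≤
      κ * ∑ i, w i * M.W n1 (g i + n2) (fun l => |X l|) (fun _ => 1) + c * ε := by
  obtain ⟨X', h1, rfl⟩ : ∃ X' : List V → ℝ, (∀ l, |X' l| ≤ 1) ∧ X = fun l => c * X' l := by
    rcases hc.eq_or_lt with rfl | hc
    · exact ⟨fun _ => 0, by simp, funext fun l => by simpa using hX l⟩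
    · refine ⟨fun l => X l / c, fun l => ?_, funext fun l => by field_simp⟩
      rw [abs_div, abs_of_pos hc, div_le_one hc]; exact hX l
  have h2 := mul_le_mul_of_nonneg_left (h n1 n2 X' Y h1 hY hY') hc
  simp only [abs_mul, abs_of_nonneg hc, W_cmul, mul_left_comm _ c, ← mul_sum]
  linarith

theorem Bub.mix_step (h : M.Bub B) {κ : ℝ} (h0 : 0 ≤ κ) (h1 : κ ≤ 1) (hκ : M.Mix κ) :
    M.Mix (κ * (1 - 1 / B ^ 2)) := by
  intro ε hε
  have hB := h.one_le_B
  obtain ⟨K, hK⟩ := h.tail (ε := ε / 8 / B) (by positivity)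
  obtain ⟨K', hK'⟩ := h.tail (ε := ε / 8 / (((K : ℝ) + 1) ^ 2 * B ^ 3)) (by positivity)
  obtain ⟨ι, _, w, g, hw, hw1, hm⟩ := hκ (ε / 2) (by positivity)
  set H := 2 * K + K' with hH
  have hst := fun n1 n2 X Y => h.stage hK (H := H) (by omega) (hK'.mono (by omega)) n1 n2
    (X := X) (Y := Y)
  rw [show ε / 8 / B * B + ((K : ℝ) + 1) ^ 2 *
    (B * (B * (ε / 8 / (((K : ℝ) + 1) ^ 2 * B ^ 3) * B))) = ε / 4 by field_simp; ring] at hst
  set BK := ∑ q ∈ sq K, M.LL q with hBK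
  have hB1 : 1 ≤ BK := by
    rw [← M.LL_zero]
    exact single_le_sum (fun q _ => M.LL_nonneg q) (by simp [sq])
  have hB2 : BK ≤ B := h.bdd _
  set G : ℕ × ℕ → ℕ := fun q => K - q.1 + (H - q.2) with hG
  refine ⟨sq K × ι, inferInstance, fun j => M.LL j.1 / BK * w j.2, fun j => G j.1 + g j.2,
    fun j => mul_nonneg (div_nonneg (M.LL_nonneg _) (by linarith)) (hw _), ?_,
    fun n1 n2 X Y hX hY hY' => ?_⟩
  · rw [Fintype.sum_prod_type]
    simp only [← mul_sum, hw1, mul_one]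
    rw [sum_coe_sort (sq K) fun q => M.LL q / BK, ← sum_div, div_self (by linarith)]
  have e1 : ∀ (X Y : List V → ℝ), ∑ j : sq K × ι, M.LL j.1 / BK * w j.2 *
      M.W n1 (G j.1 + g j.2 + n2) X (fun f => Y (f.drop (G j.1 + g j.2))) =
      (∑ q ∈ sq K, ∑ i, w i * (M.LL q * M.W (n1 + G q) (g i + n2) (fun l => X (l.take n1))
        fun f => Y (f.drop (g i)))) / BK := by
    intro X Y
    rw [Fintype.sum_prod_type, sum_div, ← sum_coe_sort (sq K)]
    refine sum_congr rfl fun q _ => ?_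
    rw [sum_div]
    refine sum_congr rfl fun i _ => ?_
    rw [← W_shift, add_assoc]
    simp only [List.drop_drop]
    ring
  have e2 : ∀ (X Y : List V → ℝ),
      ∑ q ∈ sq K, ∑ i, w i * (M.LL q * M.W (n1 + G q) (g i + n2) (fun l => X (l.take n1))
        fun f => Y (f.drop (g i))) =
      ∑ q ∈ sq K, ∑ i, w i * M.W (n1 + G q) (g i + n2)
        (fun l => M.LL q * X (l.take n1) - M.tt (n1 + (K - q.1)) q l * X (l.take n1))
        (fun f => Y (f.drop (g i))) +
      ∑ i, w i * ∑ q ∈ sq K, M.W (n1 + G q) (g i + n2)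
        (fun l => M.tt (n1 + (K - q.1)) q l * X (l.take n1)) fun f => Y (f.drop (g i)) := by
    intro X Y
    simp only [mul_sum]
    rw [sum_comm (s := univ), ← sum_add_distrib]
    refine sum_congr rfl fun q _ => ?_
    rw [← sum_add_distrib]
    refine sum_congr rfl fun i _ => ?_
    rw [W_lin]; ring
  have e3 := e1 (fun l => |X l|) fun _ => 1
  have e4 := e2 (fun l => |X l|) fun _ => 1
  rw [e1, e3, e2]
  set U := M.E (n1 + K) fun P => ind (SA P) * |X (P.take n1)| with hU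
  have hU0 : 0 ≤ U := M.E_nonneg fun _ => mul_nonneg (ind_nonneg _) (abs_nonneg _)
  set A := ∑ q ∈ sq K, ∑ i, w i * (M.LL q * M.W (n1 + G q) (g i + n2)
    (fun l => |X (l.take n1)|) fun _ => 1) with hA
  have a1 : A ≤ BK * (U * B) := by
    rw [hBK, sum_mul]
    refine sum_le_sum fun q hq => ?_
    refine avg_le hw hw1 fun i => mul_le_mul_of_nonneg_left ?_ (M.LL_nonneg q)
    simp only [sq, mem_product, mem_range] at hq
    have b1 := M.W_shift n1 (G q) (g i + n2) (fun l => |X l|) fun _ => 1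
    have b2 := M.W_shift n1 K (G q - K + (g i + n2)) (fun l => |X l|) fun _ => 1
    rw [show K + (G q - K + (g i + n2)) = G q + (g i + n2) by simp only [hG]; omega] at b2
    rw [← b1, b2]
    exact h.W_le _ _ fun _ => abs_nonneg _
  have a2 : |∑ i, w i * ∑ q ∈ sq K, M.W (n1 + G q) (g i + n2)
      (fun l => M.tt (n1 + (K - q.1)) q l * X (l.take n1)) fun f => Y (f.drop (g i))| ≤ ε / 4 := by
    refine (abs_sum_le_sum_abs _ _).trans ?_
    simp only [abs_mul, abs_of_nonneg (hw _)]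
    refine avg_le hw hw1 fun i => ?_
    have b1 := hst n1 (g i + n2) X (fun f => Y (f.drop (g i))) hX fun _ => hY _
    rwa [M.E_odd _ H (Y := fun f => Y (f.drop (g i))) fun l => by
      simp only [← List.map_drop, hY'], mul_zero, sub_zero] at b1
  have a3 : U - ε / 4 ≤ ∑ i, w i * ∑ q ∈ sq K, M.W (n1 + G q) (g i + n2)
      (fun l => M.tt (n1 + (K - q.1)) q l * |X (l.take n1)|) fun _ => 1 := by
    refine le_avg hw hw1 fun i => ?_
    have b1 := hst n1 (g i + n2) (fun l => |X l|) (fun _ => 1) (by simpa using hX) (by simp)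
    have b2 := mul_le_mul_of_nonneg_left (h.one_le (H + (g i + n2))) hU0
    simp only [mul_one] at b1 b2
    unfold aa at b2
    linarith [(abs_le.1 b1).1]
  have a4 : |∑ q ∈ sq K, ∑ i, w i * M.W (n1 + G q) (g i + n2)
      (fun l => M.LL q * X (l.take n1) - M.tt (n1 + (K - q.1)) q l * X (l.take n1))
      (fun f => Y (f.drop (g i)))| ≤ κ * ∑ q ∈ sq K, ∑ i, w i * M.W (n1 + G q) (g i + n2)
      (fun l => M.LL q * |X (l.take n1)| - M.tt (n1 + (K - q.1)) q l * |X (l.take n1)|)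
      (fun _ => 1) + BK * (ε / 2) := by
    rw [hBK, sum_mul, mul_sum, ← sum_add_distrib]
    refine (abs_sum_le_sum_abs _ _).trans (sum_le_sum fun q _ => ?_)
    have b1 : ∀ l, |M.LL q * X (l.take n1) - M.tt (n1 + (K - q.1)) q l * X (l.take n1)| =
        M.LL q * |X (l.take n1)| - M.tt (n1 + (K - q.1)) q l * |X (l.take n1)| := fun l => by
      rw [← sub_mul, abs_mul, abs_of_nonneg (sub_nonneg.2 (M.tt_le _ _ _)), sub_mul]
    have b2 := hm.scale (n1 + G q) n2 (M.LL_nonneg q) (X := fun l =>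
      M.LL q * X (l.take n1) - M.tt (n1 + (K - q.1)) q l * X (l.take n1)) (fun l => by
        rw [b1]
        nlinarith [M.tt_nonneg (n1 + (K - q.1)) q l, M.LL_nonneg q, hX (l.take n1),
          abs_nonneg (X (l.take n1))]) hY hY'
    simp only [b1] at b2
    exact b2
  rw [abs_div, abs_of_pos (show 0 < BK by linarith), div_le_iff₀ (by linarith), add_mul,
    mul_assoc, div_mul_cancel₀ _ (by linarith)]
  refine (abs_add_le _ _).trans ?_
  have a5 : A * (1 / B ^ 2) ≤ U := by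
    rw [mul_one_div, div_le_iff₀ (by positivity)]
    nlinarith [mul_le_mul_of_nonneg_right hB2 (mul_nonneg hU0 (show 0 ≤ B by linarith))]
  have a6 := mul_le_mul_of_nonneg_left a3 h0
  have a7 := mul_le_mul_of_nonneg_left a5 h0
  have a8 := congrArg (κ * ·) e4
  simp only [mul_add] at a8
  nlinarith

theorem Bub.cross (h : M.Bub B) {δ : ℝ} (hδ : 0 < δ) :
    ∃ (ι : Type) (_ : Fintype ι) (w : ι → ℝ) (g : ι → ℕ), (∀ i, 0 ≤ w i) ∧ ∑ i, w i = 1 ∧
      ∀ (n1 n2 : ℕ) (X Y : List V → ℝ) (c : ℝ), 0 ≤ c → (∀ l, |X l| ≤ c) → (∀ l, |Y l| ≤ 1) →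
        (∀ l, Y (l.map Neg.neg) = -Y l) →
        ∑ i, w i * M.W n1 (g i + n2) X (fun f => Y (f.drop (g i))) ≤ c * δ := by
  have hB := h.one_le_B
  have h1 : 1 / B ^ 2 ≤ 1 := by rw [div_le_one (by positivity)]; nlinarith
  have h2 : 0 < 1 / B ^ 2 := by positivity
  have h3 : ∀ n : ℕ, M.Mix ((1 - 1 / B ^ 2) ^ n) := by
    intro n
    induction n with
    | zero => simpa using M.mix_one
    | succ n ih =>
      rw [pow_succ]
      exact h.mix_step (pow_nonneg (by linarith) n) (pow_le_one₀ (by linarith) (by linarith)) ih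
  obtain ⟨n, hn⟩ := exists_pow_lt_of_lt_one (x := δ / 2 / B) (y := 1 - 1 / B ^ 2)
    (by positivity) (by linarith)
  obtain ⟨ι, _, w, g, hw, hw1, hm⟩ := h3 n (δ / 2) (by positivity)
  refine ⟨ι, inferInstance, w, g, hw, hw1, fun n1 n2 X Y c hc hX hY hY' => ?_⟩
  refine (le_abs_self _).trans ((hm.scale n1 n2 hc hX hY hY').trans ?_)
  have h4 : ∑ i, w i * M.W n1 (g i + n2) (fun l => |X l|) (fun _ => 1) ≤ c * B := by
    refine avg_le hw hw1 fun i => ?_
    refine le_trans ?_ (mul_le_mul_of_nonneg_left (h.aa_le (n1 + (g i + n2))) hc)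
    unfold W aa
    rw [M.E_append n1, ← E_cmul]
    refine M.E_le fun p _ => ?_
    rw [← E_cmul]
    refine M.E_le fun f _ => ?_
    rw [mul_one, mul_comm]
    exact mul_le_mul_of_nonneg_right (hX p) (ind_nonneg _)
  rw [lt_div_iff₀ (by linarith)] at hn
  have h5 := mul_le_mul_of_nonneg_left h4 (pow_nonneg (show 0 ≤ 1 - 1 / B ^ 2 by linarith) n)
  nlinarith [mul_le_mul_of_nonneg_left hn.le hc]

end Model

end Pool.Agent.Lib.BU93
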