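import Pool.Agent.Lib.BU93.Mix

/-! Tail bounds for the displacement: grid recursion and approximate orthogonality. -/

namespace Pool.Agent.Lib.BU93

open Finset

variable {V : Type} [AddCommGroup V]

theorem grid {u : ℕ → ℝ} {N : ℕ} {r : ℝ} (hr : 0 < r) (h0 : u 0 = 0) (hN : 3 * r ≤ |u N|) :
    (∃ k, k ≤ N ∧ r ≤ |u k| ∧ r ≤ |u N - u k|) ∨ ∃ k, k < N ∧ r ≤ |u (k + 1) - u k| := by
  by_contra hc
  push Not at hc
  have key : ∀ k, k ≤ N → |u k| < r := by
    intro k
    induction k with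
    | zero => intro _; simpa [h0] using hr
    | succ k ih =>
      intro hk
      have h1 := ih (by omega)
      have h2 := hc.2 k (by omega)
      by_contra h3
      have h4 := hc.1 (k + 1) hk (not_lt.1 h3)
      have h5 := abs_sub_abs_le_abs_sub (u N) (u (k + 1))
      have h6 := abs_sub_abs_le_abs_sub (u (k + 1)) (u k)
      linarith
  linarith [key N le_rfl]

/-- truncation at level `r` -/
def clip (r x : ℝ) : ℝ := max (-r) (min r x)

theorem abs_clip {r : ℝ} (hr : 0 ≤ r) (x : ℝ) : |clip r x| ≤ r :=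
  abs_le.2 ⟨le_max_left _ _, max_le (by linarith) (min_le_left _ _)⟩

theorem clip_neg {r : ℝ} (hr : 0 ≤ r) (x : ℝ) : clip r (-x) = -clip r x := by
  unfold clip
  simp only [max_def, min_def]
  split_ifs <;> linarith

theorem clip_eq {r x : ℝ} (h : |x| < r) : clip r x = x := by
  unfold clip
  rw [min_eq_right (abs_lt.1 h).2.le, max_eq_right (abs_lt.1 h).1.le]

namespace Model

variable (M : Model V) (ℓ : V →+ ℝ)

/-- weight of the self-avoiding walks whose end point has coordinate at least `r` -/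
noncomputable def ff (n : ℕ) (r : ℝ) : ℝ := M.E n fun l => ind (SA l ∧ r ≤ |ℓ l.sum|)

theorem ff_nonneg (n : ℕ) (r : ℝ) : 0 ≤ M.ff ℓ n r := M.E_nonneg fun _ => ind_nonneg _

theorem ff_mono (n : ℕ) {r r' : ℝ} (h : r ≤ r') : M.ff ℓ n r' ≤ M.ff ℓ n r :=
  M.E_le fun _ _ => ind_mono fun hh => ⟨hh.1, h.trans hh.2⟩

variable {M ℓ} {B : ℝ}

theorem len_le (hℓ : ∀ e ∈ M.S, |ℓ e| ≤ 1) {l : List V} (hl : ∀ e ∈ l, e ∈ M.S) :
    |ℓ l.sum| ≤ l.length := by
  induction l with
  | nil => simp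
  | cons e l ih =>
    simp only [List.sum_cons, map_add, List.length_cons, Nat.cast_add, Nat.cast_one]
    have h1 := hℓ e (hl e (by simp))
    have h2 := ih fun x hx => hl x (by simp [hx])
    linarith [abs_add_le (ℓ e) (ℓ l.sum)]

theorem ff_zero (hℓ : ∀ e ∈ M.S, |ℓ e| ≤ 1) {n : ℕ} {r : ℝ} (h : (n : ℝ) < r) :
    M.ff ℓ n r ≤ 0 :=
  (M.E_mono n fun l hl hS => (ind_neg fun hh => by
    have := len_le hℓ hS
    rw [hl] at this
    linarith [hh.2]).le).trans (M.E_zero n).le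

theorem two_le (i j : ℕ) (r : ℝ) :
    (M.E (i + j) fun l => ind (SA l ∧ r ≤ |ℓ (l.take i).sum| ∧ r ≤ |ℓ (l.drop i).sum|)) ≤
      M.ff ℓ i r * M.ff ℓ j r := by
  unfold ff
  rw [E_append, ← E_mulc]
  refine M.E_le fun a ha => ?_
  rw [← E_cmul]
  refine M.E_le fun b _ => ?_
  rw [List.take_left' ha, List.drop_left' ha, ← ind_and]
  exact ind_mono fun h => ⟨⟨h.1.left, h.2.1⟩, h.1.right, h.2.2⟩

theorem Bub.mid_le (h : M.Bub B) (i j k : ℕ) (r : ℝ) :
    (M.E (i + (j + k)) fun l => ind (SA l ∧ r ≤ |ℓ ((l.drop i).take j).sum|)) ≤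
      B * (M.ff ℓ j r * B) := by
  have h1 : (M.E (i + (j + k)) fun l => ind (SA l ∧ r ≤ |ℓ ((l.drop i).take j).sum|)) ≤
      M.aa i * (M.ff ℓ j r * M.aa k) := by
    unfold ff aa
    rw [E_append, ← E_mulc]
    refine M.E_le fun a ha => ?_
    rw [E_append, ← E_mulc, ← E_cmul]
    refine M.E_le fun b hb => ?_
    rw [← E_cmul, ← E_cmul]
    refine M.E_le fun c _ => ?_
    rw [List.drop_left' ha, List.take_left' hb, ← ind_and, ← ind_and]
    exact ind_mono fun h => ⟨h.1.left, ⟨h.1.right.left, h.2⟩, h.1.right.right⟩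
  have h2 := M.ff_nonneg ℓ j r
  exact h1.trans (mul_le_mul (h.aa_le i) (mul_le_mul_of_nonneg_left (h.aa_le k) h2)
    (mul_nonneg h2 (M.aa_nonneg k)) (by linarith [h.one_le_B]))

theorem Bub.recur (h : M.Bub B) {n N s : ℕ} (hn : n ≤ N * s) {r α β : ℝ} (hr : 0 < r)
    (hα : ∀ i, i ≤ n → M.ff ℓ i r ≤ α) (hβ : ∀ i, i ≤ s → M.ff ℓ i r ≤ β) :
    M.ff ℓ n (3 * r) ≤ (N + 1) * α ^ 2 + N * (B ^ 2 * β) := by
  set t : ℕ → ℕ := fun k => min (k * s) n with ht
  have h1 : M.ff ℓ n (3 * r) ≤ M.E n fun l =>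
      ∑ k ∈ range (N + 1), ind (SA l ∧ r ≤ |ℓ (l.take (t k)).sum| ∧ r ≤ |ℓ (l.drop (t k)).sum|) +
      ∑ k ∈ range N, ind (SA l ∧ r ≤ |ℓ ((l.drop (t k)).take (t (k + 1) - t k)).sum|) := by
    refine M.E_le fun l hl => ?_
    have a0 := sum_nonneg (s := range (N + 1)) fun k _ =>
      ind_nonneg (SA l ∧ r ≤ |ℓ (l.take (t k)).sum| ∧ r ≤ |ℓ (l.drop (t k)).sum|)
    have b0 := sum_nonneg (s := range N) fun k _ =>
      ind_nonneg (SA l ∧ r ≤ |ℓ ((l.drop (t k)).take (t (k + 1) - t k)).sum|)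
    by_cases hh : SA l ∧ 3 * r ≤ |ℓ l.sum|
    · have e1 : l.take (t N) = l := List.take_of_length_le (by simp only [ht]; omega)
      rw [ind_pos hh]
      rcases grid (u := fun k => ℓ (l.take (t k)).sum) (N := N) hr (by simp [ht])
        (by simp only [e1]; exact hh.2) with ⟨k, hk, h2, h3⟩ | ⟨k, hk, h2⟩
      · have e2 : ℓ (l.take (t N)).sum - ℓ (l.take (t k)).sum = ℓ (l.drop (t k)).sum := by
          rw [e1, sub_eq_iff_eq_add', ← map_add, ← List.sum_append, List.take_append_drop]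
        rw [e2] at h3
        have := single_le_sum (s := range (N + 1)) (fun k _ =>
          ind_nonneg (SA l ∧ r ≤ |ℓ (l.take (t k)).sum| ∧ r ≤ |ℓ (l.drop (t k)).sum|))
          (mem_range.2 (Nat.lt_succ_of_le hk))
        rw [ind_pos ⟨hh.1, h2, h3⟩] at this
        linarith
      · have e2 : ℓ (l.take (t (k + 1))).sum - ℓ (l.take (t k)).sum =
            ℓ ((l.drop (t k)).take (t (k + 1) - t k)).sum := by
          rw [sub_eq_iff_eq_add', ← map_add, ← List.sum_append, ← List.take_add,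
            Nat.add_sub_cancel' (min_le_min_right n (by rw [add_mul]; omega))]
        rw [e2] at h2
        have := single_le_sum (s := range N) (fun k _ =>
          ind_nonneg (SA l ∧ r ≤ |ℓ ((l.drop (t k)).take (t (k + 1) - t k)).sum|))
          (mem_range.2 hk)
        rw [ind_pos ⟨hh.1, h2⟩] at this
        linarith
    · rw [ind_neg hh]; linarith
  rw [E_add, E_sum, E_sum] at h1
  have hB := h.one_le_B
  refine h1.trans (add_le_add ((sum_le_card_nsmul _ _ (α ^ 2) fun k _ => ?_).trans (by simp))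
    ((sum_le_card_nsmul _ _ (B ^ 2 * β) fun k _ => ?_).trans (by simp)))
  · have h2 := two_le (M := M) (ℓ := ℓ) (t k) (n - t k) r
    rw [Nat.add_sub_cancel' (min_le_right _ _)] at h2
    rw [pow_two]
    exact h2.trans (mul_le_mul (hα _ (min_le_right _ _)) (hα _ (Nat.sub_le _ _))
      (M.ff_nonneg _ _ _) ((M.ff_nonneg _ _ _).trans (hα 0 (Nat.zero_le _))))
  · have h2 := h.mid_le (ℓ := ℓ) (t k) (t (k + 1) - t k) (n - t (k + 1)) r
    rw [show t k + (t (k + 1) - t k + (n - t (k + 1))) = n by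
      simp only [ht, add_mul]; omega] at h2
    have h3 := hβ (t (k + 1) - t k) (by simp only [ht, add_mul]; omega)
    nlinarith [mul_le_mul_of_nonneg_left h3 (show 0 ≤ B ^ 2 by positivity)]

theorem Bub.block (h : M.Bub B) (N g s m : ℕ) {r : ℝ} (hr : 0 < r) (U : List V → ℝ) :
    M.W (N + (g + s)) m
      (fun l => (U (l.take N) + clip r (ℓ (l.drop (N + g)).sum)) ^ 2) (fun _ => 1) ≤
      M.W N (g + (s + m)) (fun l => U l ^ 2) (fun _ => 1) +
        2 * r * M.W N (g + (s + m)) U (fun f => clip r (ℓ ((f.drop g).take s).sum) / r) +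
        r ^ 2 * B := by
  refine le_trans ?_ (add_le_add_right
    (mul_le_mul_of_nonneg_left (h.aa_le (N + (g + (s + m)))) (sq_nonneg r)) _)
  unfold W aa
  rw [M.E_append N, M.E_append N, ← E_cmul, ← E_cmul, ← E_add, ← E_add]
  refine M.E_le fun p hp => ?_
  rw [M.E_append g, ← E_cmul, ← E_cmul, ← E_add, ← E_add, M.E_append g]
  refine M.E_le fun c hc => ?_
  rw [M.E_append s]
  refine M.E_le fun b hb => M.E_le fun f _ => ?_
  beta_reduce
  rw [List.take_left' hp, List.drop_left' hc, List.take_left' hb, ← List.append_assoc p c b,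
    List.drop_left' (by simp [hp, hc])]
  simp only [List.append_assoc]
  have h1 : clip r (ℓ b.sum) ^ 2 ≤ r ^ 2 := sq_le_sq' (abs_le.1 (abs_clip hr.le _)).1
    (abs_le.1 (abs_clip hr.le _)).2
  have h2 : 2 * r * (ind (SA (p ++ (c ++ (b ++ f)))) * U p * (clip r (ℓ b.sum) / r)) =
      2 * (ind (SA (p ++ (c ++ (b ++ f)))) * U p * clip r (ℓ b.sum)) := by field_simp
  nlinarith [mul_le_mul_of_nonneg_left h1 (ind_nonneg (SA (p ++ (c ++ (b ++ f)))))]

theorem Bub.blocks (h : M.Bub B) (hℓ : ∀ e ∈ M.S, |ℓ e| ≤ 1) {δ : ℝ} (hδ : 0 ≤ δ) {ι : Type}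
    [Fintype ι] {w : ι → ℝ} {g : ι → ℕ} (hw : ∀ i, 0 ≤ w i) (hw1 : ∑ i, w i = 1) {D : ℕ}
    (hD : ∀ i, g i ≤ D)
    (hx : ∀ (n1 n2 : ℕ) (X Y : List V → ℝ) (c : ℝ), 0 ≤ c → (∀ l, |X l| ≤ c) →
      (∀ l, |Y l| ≤ 1) → (∀ l, Y (l.map Neg.neg) = -Y l) →
      ∑ i, w i * M.W n1 (g i + n2) X (fun f => Y (f.drop (g i))) ≤ c * δ)
    (s : ℕ) {r : ℝ} (hr : 0 < r) (k : ℕ) :
    ∀ (κ : Type) [Fintype κ] (u : κ → ℝ) (m : κ → ℕ), (∀ j, 0 ≤ u j) → ∑ j, u j = 1 →
      ∃ (N : ℕ) (U : List V → ℝ), k * s ≤ N ∧ N ≤ k * (s + D) ∧ (∀ l, |U l| ≤ k * r) ∧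
        ∑ j, u j * M.W N (m j) (fun l => U l ^ 2) (fun _ => 1) ≤ (k * B + k ^ 2 * δ) * r ^ 2 ∧
        ∀ n, (M.E N fun p => M.E n fun f =>
          ind (SA (p ++ f) ∧ (k * D : ℝ) < |ℓ p.sum - U p|)) ≤ k * (B ^ 2 * M.ff ℓ s r) := by
  induction k with
  | zero =>
    intro κ _ u m _ _
    refine ⟨0, fun _ => 0, by simp, by simp, by simp, ?_, fun n => ?_⟩
    · simp [W, E_zero]
    · simp [E, ind, E_zero]
  | succ k ih =>
    intro κ _ u m hu hu1
    obtain ⟨N, U, h1, h2, h3, h4, h5⟩ := ih (κ × ι) (fun j => u j.1 * w j.2)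
      (fun j => g j.2 + (s + m j.1)) (fun j => mul_nonneg (hu _) (hw _))
      (by rw [Fintype.sum_prod_type]; simp only [← mul_sum, hw1, mul_one, hu1])
    have hne : (univ : Finset ι).Nonempty := by
      by_contra h0
      rw [not_nonempty_iff_eq_empty] at h0
      rw [h0] at hw1
      simp at hw1
    obtain ⟨i, -, hi⟩ := exists_min_image univ (fun i => ∑ j, u j * M.W (N + (g i + s)) (m j)
      (fun l => (U (l.take N) + clip r (ℓ (l.drop (N + g i)).sum)) ^ 2) fun _ => 1) hne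
    refine ⟨N + (g i + s), fun l => U (l.take N) + clip r (ℓ (l.drop (N + g i)).sum),
      by rw [add_mul]; omega, by have := hD i; rw [add_mul]; omega, fun l => ?_, ?_, fun n => ?_⟩
    · push_cast
      linarith [abs_add_le (U (l.take N)) (clip r (ℓ (l.drop (N + g i)).sum)), h3 (l.take N),
        abs_clip hr.le (ℓ (l.drop (N + g i)).sum)]
    · refine (le_avg hw hw1 fun i' => hi i' (mem_univ _)).trans ?_
      have a1 : ∀ j, ∑ i, w i * M.W (N + (g i + s)) (m j)
          (fun l => (U (l.take N) + clip r (ℓ (l.drop (N + g i)).sum)) ^ 2) (fun _ => 1) ≤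
          ∑ i, w i * M.W N (g i + (s + m j)) (fun l => U l ^ 2) (fun _ => 1) +
            (2 * r * (k * r * δ) + r ^ 2 * B) := by
        intro j
        have b1 := hx N (s + m j) U (fun f => clip r (ℓ (f.take s).sum) / r) (k * r)
          (by positivity) h3 (fun l => by
            rw [abs_div, abs_of_pos hr, div_le_one hr]; exact abs_clip hr.le _)
          fun l => by rw [← List.map_take, sum_map_neg, map_neg, clip_neg hr.le, neg_div]
        refine (sum_le_sum fun i _ => mul_le_mul_of_nonneg_left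
          (h.block N (g i) s (m j) hr U) (hw i)).trans ?_
        simp only [mul_add, sum_add_distrib, ← sum_mul, hw1, mul_left_comm _ (2 * r), ← mul_sum]
        nlinarith [mul_le_mul_of_nonneg_left b1 (show 0 ≤ 2 * r by linarith)]
      rw [Fintype.sum_prod_type] at h4
      simp only [mul_assoc, ← mul_sum] at h4
      simp only [mul_sum, mul_left_comm (w _)]
      rw [sum_comm]
      simp only [← mul_sum]
      refine (sum_le_sum fun j _ => mul_le_mul_of_nonneg_left (a1 j) (hu j)).trans ?_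
      simp only [mul_add (u _), sum_add_distrib, ← sum_mul, hu1]
      push_cast
      nlinarith [mul_nonneg hδ (sq_nonneg r)]
    · have a1 := add_le_add (h5 (g i + (s + n))) (h.mid_le (ℓ := ℓ) (N + g i) s n r)
      refine le_trans ?_ (a1.trans (le_of_eq (by push_cast; ring)))
      rw [add_assoc N, M.E_append N, M.E_append N, ← E_add]
      refine M.E_le fun p hp => ?_
      rw [← E_add, M.E_append (g i), M.E_append (g i)]
      refine M.E_mono _ fun c hc hS => ?_
      rw [M.E_append s]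
      refine M.E_le fun b hb => M.E_le fun f _ => ?_
      beta_reduce
      rw [List.take_left' hp, ← List.append_assoc p c b, ← List.append_assoc p c (b ++ f),
        List.drop_left' (l₁ := p ++ c) (by simp [hp, hc]),
        List.drop_left' (l₁ := p ++ c) (by simp [hp, hc]), List.take_left' hb]
      simp only [List.append_assoc, List.sum_append, map_add]
      by_cases b1 : r ≤ |ℓ b.sum|
      · linarith [ind_nonneg (SA (p ++ (c ++ (b ++ f))) ∧ (k * D : ℝ) < |ℓ p.sum - U p|),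
          ind_mono (P := SA (p ++ (c ++ (b ++ f))) ∧ ((k + 1 : ℕ) * D : ℝ) <
            |ℓ p.sum + (ℓ c.sum + ℓ b.sum) - (U p + clip r (ℓ b.sum))|)
            (Q := SA (p ++ (c ++ (b ++ f))) ∧ r ≤ |ℓ b.sum|) fun hh => ⟨hh.1, b1⟩]
      · refine le_trans (ind_mono fun hh => ⟨hh.1, ?_⟩) (le_add_of_nonneg_right (ind_nonneg _))
        have b2 := hh.2
        have b3 := len_le hℓ hS
        have b4 : (g i : ℝ) ≤ D := by exact_mod_cast hD i
        rw [clip_eq (not_le.1 b1), show ℓ p.sum + (ℓ c.sum + ℓ b.sum) - (U p + ℓ b.sum) =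
          ℓ p.sum - U p + ℓ c.sum by ring] at b2
        rw [hc] at b3
        push_cast at b2
        linarith [abs_add_le (ℓ p.sum - U p) (ℓ c.sum)]

end Model

end Pool.Agent.Lib.BU93
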